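import Pool.Agent.Lib.MP_0430e4_lc.YG.A3

/-!
# GLUE, part 4: functions of the strip variable as analytic functions on the unit disc

`GLUE`: if `e` is analytic in the strip `|Re s| < η`, `2πi`-periodic and `e (iπ - s) = e s`, there is
`f`, analytic on the open unit disc, with `f (Z η s) = e s` for `0 ≤ Re s < η`.
-/

set_option autoImplicit false

namespace Pool.Agent.Lib.MP_0430e4_lc.YG

open Complex LPLOW Filter Topology Set
open Lower (zz eta)

variable {η : ℝ}

/-- the symmetries of the strip functions -/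
structure Sy (η : ℝ) (e : ℂ → ℂ) : Prop where
  per : ∀ s, |s.re| < η → e (s + 2 * Real.pi * I) = e s
  sheet : ∀ s, |s.re| < η → e (Real.pi * I - s) = e s

theorem Sy.int {e : ℂ → ℂ} (he : Sy η e) (s : ℂ) (hs : |s.re| < η) (k : ℤ) :
    e (s + k * (2 * Real.pi * I)) = e s := by
  have hp : ∀ (m : ℕ) (s : ℂ), |s.re| < η → e (s + m * (2 * Real.pi * I)) = e s := by
    intro m
    induction m with
    | zero => intro s _; simp
    | succ m ih =>
      intro s hs
      have : s + ((m + 1 : ℕ) : ℂ) * (2 * Real.pi * I)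
          = (s + 2 * Real.pi * I) + m * (2 * Real.pi * I) := by
        push_cast; ring
      rw [this, ih _ (by simpa using hs), he.per s hs]
  obtain ⟨m, rfl | rfl⟩ := Int.eq_nat_or_neg k
  · exact_mod_cast hp m s hs
  · have h := hp m (s + ((-(m : ℤ) : ℤ) : ℂ) * (2 * Real.pi * I)) (by simpa using hs)
    rw [← h]
    congr 1
    push_cast
    ring

theorem re_shift (t : ℂ) (k : ℤ) : (t + k * (2 * Real.pi * I)).re = t.re := by
  simp

/-- reduction of the imaginary part: `s = t + k 2πi` or `s = t + iπ + k 2πi` with `|Im t| ≤ π/2` -/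
theorem reduce (s : ℂ) : ∃ (t : ℂ) (k : ℤ), t.re = s.re ∧ |t.im| ≤ Real.pi / 2 ∧
    (s = t + k * (2 * Real.pi * I) ∨ s = (t + Real.pi * I) + k * (2 * Real.pi * I)) := by
  have hpi := Real.pi_pos
  -- round `Im s / π`
  set m : ℤ := ⌊s.im / Real.pi + 1 / 2⌋ with hm
  have h1 : (m : ℝ) ≤ s.im / Real.pi + 1 / 2 := Int.floor_le _
  have h2 : s.im / Real.pi + 1 / 2 < m + 1 := Int.lt_floor_add_one _
  have h3 : |s.im - m * Real.pi| ≤ Real.pi / 2 := by
    rw [abs_le]
    have e1 : (m - 1 / 2) * Real.pi ≤ s.im := by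
      have : (m : ℝ) - 1 / 2 ≤ s.im / Real.pi := by linarith
      rwa [le_div_iff₀ hpi] at this
    have e2 : s.im ≤ (m + 1 / 2) * Real.pi := by
      have : s.im / Real.pi ≤ (m : ℝ) + 1 / 2 := by linarith
      rwa [div_le_iff₀ hpi] at this
    constructor <;> linarith
  rcases Int.even_or_odd m with ⟨j, hj⟩ | ⟨j, hj⟩
  · refine ⟨s - j * (2 * Real.pi * I), j, by simp, ?_, Or.inl (by ring)⟩
    have : (s - j * (2 * Real.pi * I)).im = s.im - m * Real.pi := by
      rw [hj]
      simp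
      ring
    rw [this]
    exact h3
  · refine ⟨s - Real.pi * I - j * (2 * Real.pi * I), j, by simp, ?_, Or.inr (by ring)⟩
    have : (s - Real.pi * I - j * (2 * Real.pi * I)).im = s.im - m * Real.pi := by
      rw [hj]
      simp
      ring
    rw [this]
    exact h3

theorem Z_re_nonneg (hη : 0 < η) {s : ℂ} (h0 : 0 ≤ s.re) (h1 : s.re < η)
    (hi : |s.im| ≤ Real.pi / 2) : 0 ≤ (Z η s).re := by
  have hpi := Real.pi_pos
  rcases h0.lt_or_eq with h | h
  · rcases hi.lt_or_eq with h2 | h2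
    · exact (Z_re_pos hη h h1 h2).le
    · rcases (abs_eq (by linarith)).1 h2 with h3 | h3
      · rw [Z_re_line h3]
      · rw [Z_re_line' h3]
  · rw [Z_re_zero h.symm]

/-- where the value is imaginary -/
theorem of_re_eq_zero (hη : 0 < η) {s : ℂ} (h0 : 0 ≤ s.re) (h1 : s.re < η)
    (hi : |s.im| ≤ Real.pi / 2) (hz : (Z η s).re = 0) :
    s.re = 0 ∨ s.im = Real.pi / 2 ∨ s.im = -(Real.pi / 2) := by
  have hpi := Real.pi_pos
  rcases h0.lt_or_eq with h | h
  · rcases hi.lt_or_eq with h2 | h2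
    · have := Z_re_pos hη h h1 h2
      rw [hz] at this
      exact absurd this (lt_irrefl _)
    · exact Or.inr ((abs_eq (by linarith)).1 h2)
  · exact Or.inl h.symm

/-- functions with the two symmetries are functions of `Z` -/
theorem Sy.wd (hη : 0 < η) {e : ℂ → ℂ} (he : Sy η e) {s s' : ℂ} (h0 : 0 ≤ s.re) (h1 : s.re < η)
    (h0' : 0 ≤ s'.re) (h1' : s'.re < η) (h : Z η s = Z η s') : e s = e s' := by
  have hpi := Real.pi_pos
  obtain ⟨t, k, ht, hti, hs⟩ := reduce s
  obtain ⟨t', k', ht', hti', hs'⟩ := reduce s'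
  rw [← ht] at h0 h1
  rw [← ht'] at h0' h1'
  -- the mixed case
  have mixed : ∀ t t' : ℂ, 0 ≤ t.re → t.re < η → |t.im| ≤ Real.pi / 2 → 0 ≤ t'.re → t'.re < η →
      |t'.im| ≤ Real.pi / 2 → Z η t = -Z η t' → e t = e (t' + Real.pi * I) := by
    intro t t' a0 a1 ai b0 b1 bi hZ
    have r1 := Z_re_nonneg hη a0 a1 ai
    have r2 := Z_re_nonneg hη b0 b1 bi
    have r3 : (Z η t).re = -(Z η t').re := by rw [hZ, Complex.neg_re]
    have r4 : (Z η t).re = 0 := by linarith
    have r5 : (Z η t').re = 0 := by linarith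
    have r6 : Z η t = Z η (starRingEnd ℂ t') := by
      rw [Z_conj, hZ]
      apply Complex.ext
      · simp [r5]
      · simp
    have r7 : t = starRingEnd ℂ t' :=
      Z_inj hη a0 a1 ai (by simpa using b0) (by simpa using b1) (by simpa using bi) r6
    have r8 : t' = starRingEnd ℂ t := by rw [r7, Complex.conj_conj]
    rcases of_re_eq_zero hη a0 a1 ai r4 with h2 | h2 | h2
    · have : t' + Real.pi * I = Real.pi * I - t := by
        rw [r8]
        apply Complex.ext
        · simp [h2]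
        · simp
          ring
      rw [this, he.sheet t (abs_lt.2 ⟨by linarith, a1⟩)]
    · have : t' + Real.pi * I = t := by
        rw [r8]
        apply Complex.ext
        · simp
        · simp [h2]
          ring
      rw [this]
    · have : t' + Real.pi * I = t + 2 * Real.pi * I := by
        rw [r8]
        apply Complex.ext
        · simp
        · simp [h2]
          ring
      rw [this, he.per t (abs_lt.2 ⟨by linarith, a1⟩)]
  have hA : |t.re| < η := abs_lt.2 ⟨by linarith, h1⟩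
  have hA' : |t'.re| < η := abs_lt.2 ⟨by linarith, h1'⟩
  have hB : |(t + Real.pi * I).re| < η := by simpa using hA
  have hB' : |(t' + Real.pi * I).re| < η := by simpa using hA'
  rcases hs with hs | hs <;> rcases hs' with hs' | hs'
  · rw [hs, hs', Z_add_int, Z_add_int] at h
    rw [hs, hs', he.int _ hA, he.int _ hA', Z_inj hη h0 h1 hti h0' h1' hti' h]
  · rw [hs, hs', Z_add_int, Z_add_int, Z_add_pi] at h
    rw [hs, hs', he.int _ hA, he.int _ hB']
    exact mixed t t' h0 h1 hti h0' h1' hti' h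
  · rw [hs, hs', Z_add_int, Z_add_int, Z_add_pi] at h
    rw [hs, hs', he.int _ hB, he.int _ hA']
    exact (mixed t' t h0' h1' hti' h0 h1 hti h.symm).symm
  · rw [hs, hs', Z_add_int, Z_add_int, Z_add_pi, Z_add_pi] at h
    have h2 : Z η t = Z η t' := neg_injective h
    rw [hs, hs', he.int _ hB, he.int _ hB', Z_inj hη h0 h1 hti h0' h1' hti' h2]

/-- the closed strip modulo its period, a compact set -/
def Kc (η : ℝ) : Set ℂ := Icc 0 η ×ℂ Icc (-(Real.pi / 2)) (3 * Real.pi / 2)

theorem mem_Kc {s : ℂ} : s ∈ Kc η ↔ (0 ≤ s.re ∧ s.re ≤ η) ∧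
    (-(Real.pi / 2) ≤ s.im ∧ s.im ≤ 3 * Real.pi / 2) := by
  unfold Kc
  rw [Complex.mem_reProdIm]
  rfl

theorem Kc_compact : IsCompact (Kc η) := isCompact_Icc.reProdIm isCompact_Icc

/-- a section of `Z` on the closed disc -/
theorem section_exists (hη : 0 < η) : ∃ σ : ℂ → ℂ, ∀ z : ℂ, ‖z‖ ≤ 1 → σ z ∈ Kc η ∧ Z η (σ z) = z := by
  have h : ∀ z : ℂ, ∃ s : ℂ, ‖z‖ ≤ 1 → s ∈ Kc η ∧ Z η s = z := by
    intro z
    by_cases hz : ‖z‖ ≤ 1
    · obtain ⟨s, h1, h2, h3⟩ := surj hη hz
      exact ⟨s, fun _ => ⟨mem_Kc.2 ⟨h1, h2⟩, h3⟩⟩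
    · exact ⟨0, fun h => absurd h hz⟩
  choose σ hσ using h
  exact ⟨σ, hσ⟩

theorem re_lt_of_norm (hη : 0 < η) {s : ℂ} (hs : s ∈ Kc η) (h : ‖Z η s‖ < 1) : s.re < η := by
  rw [mem_Kc] at hs
  rcases hs.1.2.lt_or_eq with h1 | h1
  · exact h1
  · rw [Z_norm hη h1] at h
    exact absurd h (lt_irrefl _)

/-- continuity of `e ∘ σ` -/
theorem cont_comp (hη : 0 < η) {e : ℂ → ℂ} (he : Sy η e)
    (hc : ∀ s : ℂ, |s.re| < η → ContinuousAt e s) {σ : ℂ → ℂ}
    (hσ : ∀ z : ℂ, ‖z‖ ≤ 1 → σ z ∈ Kc η ∧ Z η (σ z) = z) {z0 : ℂ} (h0 : ‖z0‖ < 1) :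
    ContinuousAt (fun z => e (σ z)) z0 := by
  unfold ContinuousAt
  rw [tendsto_iff_ultrafilter]
  intro g hg
  have hball : Metric.ball (0 : ℂ) 1 ∈ 𝓝 z0 := Metric.isOpen_ball.mem_nhds (by simpa using h0)
  have hev : ∀ᶠ z in (g : Filter ℂ), ‖z‖ < 1 := by
    have := hg hball
    filter_upwards [this] with z hz
    simpa using hz
  -- the ultrafilter `map σ g` lives on `Kc`
  have hK : (g.map σ : Filter ℂ) ≤ 𝓟 (Kc η) := by
    rw [le_principal_iff, Ultrafilter.mem_coe, Ultrafilter.mem_map]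
    filter_upwards [hev] with z hz
    exact (hσ z hz.le).1
  obtain ⟨s, hs, hlim⟩ := Kc_compact.ultrafilter_le_nhds (g.map σ) hK
  have hσs : Tendsto σ (g : Filter ℂ) (𝓝 s) := hlim
  have hs' := mem_Kc.1 hs
  have h1 : Tendsto (fun z => Z η (σ z)) (g : Filter ℂ) (𝓝 (Z η s)) :=
    (Z_cont hη (by rw [abs_of_nonneg hs'.1.1]; exact hs'.1.2)).tendsto.comp hσs
  have h2 : Tendsto (fun z => Z η (σ z)) (g : Filter ℂ) (𝓝 z0) := by
    have h3 : Tendsto (fun z : ℂ => z) (g : Filter ℂ) (𝓝 z0) := hg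
    refine h3.congr' ?_
    filter_upwards [hev] with z hz
    exact (hσ z hz.le).2.symm
  have h3 : Z η s = z0 := tendsto_nhds_unique h1 h2
  have hsre : s.re < η := re_lt_of_norm hη hs (by rw [h3]; exact h0)
  have h4 : e s = e (σ z0) := by
    have hz := hσ z0 h0.le
    apply he.wd hη hs'.1.1 hsre (mem_Kc.1 hz.1).1.1
      (re_lt_of_norm hη hz.1 (by rw [hz.2]; exact h0))
    rw [h3, hz.2]
  show Tendsto (fun z => e (σ z)) (g : Filter ℂ) (𝓝 (e (σ z0)))
  rw [← h4]
  exact (hc s (abs_lt.2 ⟨by linarith [hs'.1.1], hsre⟩)).tendsto.comp hσs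

/-- non-vanishing of the derivative away from the two tips -/
theorem Zd_ne (hη : 0 < η) {s : ℂ} (h0 : 0 ≤ s.re) (h1 : s.re < η)
    (hz : Z η s ≠ Z η ((Real.pi / 2 : ℝ) * I) ∧ Z η s ≠ -Z η ((Real.pi / 2 : ℝ) * I)) :
    AA η s * (1 - Z η s ^ 2) ≠ 0 := by
  have hpi := Real.pi_pos
  have habs : |s.re| < η := abs_lt.2 ⟨by linarith, h1⟩
  have h2 : (1 : ℂ) - Z η s ^ 2 ≠ 0 := by
    rw [show (1 : ℂ) - Z η s ^ 2 = (1 - Z η s) * (1 + Z η s) by ring]
    exact mul_ne_zero (one_sub_Z_ne hη habs) (one_add_Z_ne hη habs)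
  refine mul_ne_zero ?_ h2
  have AAint : ∀ (t : ℂ) (k : ℤ), AA η (t + k * (2 * Real.pi * I)) = AA η t := by
    have hp : ∀ (m : ℕ) (s : ℂ), AA η (s + m * (2 * Real.pi * I)) = AA η s := by
      intro m
      induction m with
      | zero => intro s; simp
      | succ m ih =>
        intro s
        have : s + ((m + 1 : ℕ) : ℂ) * (2 * Real.pi * I)
            = ((s + Real.pi * I) + Real.pi * I) + m * (2 * Real.pi * I) := by
          push_cast; ring
        rw [this, ih, AA_add_pi, AA_add_pi, neg_neg]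
    intro t k
    obtain ⟨m, rfl | rfl⟩ := Int.eq_nat_or_neg k
    · exact_mod_cast hp m t
    · have h := hp m (t + ((-(m : ℤ) : ℤ) : ℂ) * (2 * Real.pi * I))
      rw [← h]
      congr 1
      push_cast
      ring
  -- the tips
  have tip : ∀ t : ℂ, t.re = 0 → |t.im| = Real.pi / 2 →
      Z η t = Z η ((Real.pi / 2 : ℝ) * I) ∨ Z η t = -Z η ((Real.pi / 2 : ℝ) * I) := by
    intro t ht hti
    rcases (abs_eq (by linarith)).1 hti with h | h
    · left
      congr 1
      apply Complex.ext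
      · simp [ht]
      · simp [h]
    · right
      rw [← Z_neg]
      congr 1
      apply Complex.ext
      · simp [ht]
      · simp [h]
  obtain ⟨t, k, ht, hti, hs⟩ := reduce s
  rcases hs with hs | hs
  · rw [hs, AAint]
    apply AA_ne hη (by rw [ht]; exact h0) (by rw [ht]; exact h1) hti
    rintro ⟨ha, hb⟩
    rw [hs, Z_add_int] at hz
    rcases tip t ha hb with h | h
    · exact hz.1 h
    · exact hz.2 h
  · rw [hs, AAint, AA_add_pi]
    apply neg_ne_zero.2
    apply AA_ne hη (by rw [ht]; exact h0) (by rw [ht]; exact h1) hti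
    rintro ⟨ha, hb⟩
    rw [hs, Z_add_int, Z_add_pi] at hz
    rcases tip t ha hb with h | h
    · exact hz.2 (by rw [h])
    · exact hz.1 (by rw [h, neg_neg])

/-- differentiability of `e ∘ σ` away from the tips -/
theorem diff_comp (hη : 0 < η) {e : ℂ → ℂ} (he : Sy η e)
    (hd : ∀ s : ℂ, |s.re| < η → DifferentiableAt ℂ e s) {σ : ℂ → ℂ}
    (hσ : ∀ z : ℂ, ‖z‖ ≤ 1 → σ z ∈ Kc η ∧ Z η (σ z) = z) {z0 : ℂ} (h0 : ‖z0‖ < 1)
    (hz : z0 ≠ Z η ((Real.pi / 2 : ℝ) * I) ∧ z0 ≠ -Z η ((Real.pi / 2 : ℝ) * I)) :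
    DifferentiableAt ℂ (fun z => e (σ z)) z0 := by
  obtain ⟨hK, hZ⟩ := hσ z0 h0.le
  set s0 := σ z0 with hs0
  have hKm := mem_Kc.1 hK
  have hre1 : s0.re < η := re_lt_of_norm hη hK (by rw [hZ]; exact h0)
  have habs : |s0.re| < η := abs_lt.2 ⟨by linarith [hKm.1.1], hre1⟩
  have hne := Zd_ne hη hKm.1.1 hre1 (by rw [hZ]; exact hz)
  have hstr : HasStrictDerivAt (Z η) (AA η s0 * (1 - Z η s0 ^ 2)) s0 := by
    have h1 : AnalyticAt ℂ (Z η) s0 := by
      have : DifferentiableOn ℂ (Z η) {w : ℂ | |w.re| < η} :=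
        fun w hw => (Z_diff hη (le_of_lt hw)).differentiableWithinAt
      exact this.analyticOnNhd isOpen_str s0 habs
    have h2 := h1.hasStrictDerivAt
    rwa [(Z_deriv hη habs).deriv] at h2
  -- local inverse
  set g := hstr.localInverse (Z η) _ s0 hne with hg
  have hgd : HasStrictDerivAt g (AA η s0 * (1 - Z η s0 ^ 2))⁻¹ (Z η s0) :=
    hstr.to_localInverse hne
  have hgr : ∀ᶠ z in 𝓝 (Z η s0), Z η (g z) = z :=
    hstr.eventually_right_inverse hne
  have hg0 : g (Z η s0) = s0 := HasStrictFDerivAt.localInverse_apply_image ..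
  rw [hZ] at hgd hgr hg0
  have hgc : ContinuousAt g z0 := hgd.hasDerivAt.continuousAt
  have hev : (fun z => e (σ z)) =ᶠ[𝓝 z0] fun z => e (g z) := by
    have h1 : ∀ᶠ z in 𝓝 z0, |(g z).re| < η := by
      have : ContinuousAt (fun z => |(g z).re|) z0 :=
        (Complex.continuous_re.continuousAt.comp hgc).abs
      apply this.eventually_lt_const
      show |(g z0).re| < η
      rw [hg0]
      exact habs
    have h2 : ∀ᶠ z in 𝓝 z0, ‖z‖ < 1 := (continuous_norm.continuousAt).eventually_lt_const h0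
    filter_upwards [h1, h2, hgr] with z hz1 hz2 hz3
    obtain ⟨hK', hZ'⟩ := hσ z hz2.le
    have hKm' := mem_Kc.1 hK'
    have hre' : (σ z).re < η := re_lt_of_norm hη hK' (by rw [hZ']; exact hz2)
    rcases le_total 0 (g z).re with h3 | h3
    · apply he.wd hη hKm'.1.1 hre' h3 (abs_lt.1 hz1).2
      rw [hZ', hz3]
    · rw [← he.sheet (g z) hz1]
      apply he.wd hη hKm'.1.1 hre'
      · simpa using h3
      · simp
        linarith [(abs_lt.1 hz1).1]
      · rw [hZ', Z_sheet, hz3]
  rw [hev.differentiableAt_iff]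
  exact (hd (g z0) (by rw [hg0]; exact habs)).comp z0 hgd.hasDerivAt.differentiableAt

/-- **GLUE** -/
theorem glue (hη : 0 < η) {e : ℂ → ℂ} (he : Sy η e)
    (hd : ∀ s : ℂ, |s.re| < η → DifferentiableAt ℂ e s) :
    ∃ f : ℂ → ℂ, DifferentiableOn ℂ f (Metric.ball 0 1) ∧
      ∀ s : ℂ, 0 ≤ s.re → s.re < η → ‖Z η s‖ < 1 → f (Z η s) = e s := by
  obtain ⟨σ, hσ⟩ := section_exists hη
  refine ⟨fun z => e (σ z), ?_, ?_⟩
  · intro z0 hz0
    have h0 : ‖z0‖ < 1 := by simpa using hz0
    apply DifferentiableAt.differentiableWithinAt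
    by_cases hz : z0 ≠ Z η ((Real.pi / 2 : ℝ) * I) ∧ z0 ≠ -Z η ((Real.pi / 2 : ℝ) * I)
    · exact diff_comp hη he hd hσ h0 hz
    · -- a tip: removable singularity
      have hcont := cont_comp hη he (fun s hs => (hd s hs).continuousAt) hσ h0
      -- a punctured neighbourhood without the other tip
      have hU : ∃ U ∈ 𝓝 z0, ∀ z ∈ U, z ≠ z0 → DifferentiableAt ℂ (fun z => e (σ z)) z := by
        set w := Z η ((Real.pi / 2 : ℝ) * I) with hw
        refine ⟨Metric.ball 0 1 ∩ ({w, -w} \ {z0})ᶜ, ?_, ?_⟩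
        · apply Filter.inter_mem (Metric.isOpen_ball.mem_nhds hz0)
          apply IsOpen.mem_nhds
          · exact (((Set.finite_singleton (-w)).insert w).subset sdiff_subset).isClosed.isOpen_compl
          · simp
        · rintro z ⟨hz1, hz2⟩ hz3
          have h1 : ‖z‖ < 1 := by simpa using hz1
          apply diff_comp hη he hd hσ h1
          constructor
          · intro hcon
            exact hz2 ⟨by rw [hcon]; simp [hw], hz3⟩
          · intro hcon
            exact hz2 ⟨by rw [hcon]; simp [hw], hz3⟩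
      obtain ⟨U, hU1, hU2⟩ := hU
      have h3 := (Complex.differentiableOn_compl_singleton_and_continuousAt_iff hU1).1
        ⟨fun z hz => (hU2 z hz.1 hz.2).differentiableWithinAt, hcont⟩
      exact h3.differentiableAt hU1
  · intro s h0 h1 h2
    obtain ⟨hK, hZ⟩ := hσ (Z η s) h2.le
    apply he.wd hη (mem_Kc.1 hK).1.1 (re_lt_of_norm hη hK (by rw [hZ]; exact h2)) h0 h1
    exact hZ

/-- inside the strip the values are in the open disc -/
theorem Z_norm_lt_one (hη : 0 < η) {s : ℂ} (h0 : 0 ≤ s.re) (h1 : s.re < η) : ‖Z η s‖ < 1 := by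
  have hpi := Real.pi_pos
  have key : ∀ t : ℂ, |t.re| < η → |t.im| ≤ Real.pi / 2 → ‖Z η t‖ < 1 := by
    intro t ht hti
    rcases hti.lt_or_eq with h | h
    · exact Z_norm_lt hη ht h
    · -- limit gives `≤ 1`; equality would contradict the open mapping theorem
      have hanal : DifferentiableOn ℂ (Z η) {w : ℂ | |w.re| < η} :=
        fun w hw => (Z_diff hη (le_of_lt hw)).differentiableWithinAt
      have hle : ∀ w : ℂ, |w.re| < η → ‖Z η w‖ ≤ 1 := by
        intro w hw
        obtain ⟨w', k, hw1, hw2, hw3⟩ := reduce w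
        have hcl : ‖Z η w'‖ ≤ 1 := by
          rcases hw2.lt_or_eq with h5 | h5
          · exact (Z_norm_lt hη (by rw [hw1]; exact hw) h5).le
          · -- limit along `(1-t) Im w'`
            have hc : ContinuousAt (fun x : ℝ => ‖Z η ((w'.re : ℂ) + (x * w'.im : ℝ) * I)‖) 1 := by
              have e1 : ContinuousAt (fun x : ℝ => (w'.re : ℂ) + (x * w'.im : ℝ) * I) 1 := by
                fun_prop
              have e2 : ContinuousAt (Z η) ((w'.re : ℂ) + ((1 : ℝ) * w'.im : ℝ) * I) :=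
                Z_cont hη (by simp; rw [hw1]; exact hw.le)
              exact (ContinuousAt.comp (g := Z η)
                (f := fun x : ℝ => (w'.re : ℂ) + (x * w'.im : ℝ) * I) e2 e1).norm
            have hval : ((w'.re : ℂ) + ((1 : ℝ) * w'.im : ℝ) * I) = w' := by
              rw [one_mul]
              exact Complex.re_add_im w'
            have hl := hc.tendsto.mono_left (nhdsWithin_le_nhds (s := Iio (1 : ℝ)))
            rw [hval] at hl
            refine le_of_tendsto hl ?_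
            filter_upwards [Ioo_mem_nhdsLT (show (0 : ℝ) < 1 by norm_num)] with x hx
            apply (Z_norm_lt hη _ _).le
            · simp
              rw [hw1]
              exact hw
            · simp only [Complex.add_im, Complex.ofReal_im, Complex.mul_im, Complex.ofReal_re,
                Complex.I_im, mul_one, Complex.I_re, mul_zero, add_zero, zero_add]
              rw [abs_mul, abs_of_pos hx.1, h5]
              nlinarith [hx.2]
        rcases hw3 with h6 | h6
        · rw [h6, Z_add_int]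
          exact hcl
        · rw [h6, Z_add_int, Z_add_pi, norm_neg]
          exact hcl
      rcases (hle t ht).lt_or_eq with h5 | h5
      · exact h5
      · exfalso
        have hmax : IsMaxOn (norm ∘ Z η) {w : ℂ | |w.re| < η} t := by
          intro w hw
          simp only [Function.comp_apply, Set.mem_ofPred_eq]
          rw [h5]
          exact hle w hw
        have h6 := Complex.norm_eqOn_of_isPreconnected_of_isMaxOn (Jac.strip_preconnected η)
          isOpen_str hanal ht hmax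
        have h7 := h6 (x := 0) (by simpa using hη)
        simp only [Function.comp_apply, Function.const_apply, Z_zero, norm_zero] at h7
        rw [h5] at h7
        exact zero_ne_one h7
  have habs : |s.re| < η := abs_lt.2 ⟨by linarith, h1⟩
  obtain ⟨t, k, ht, hti, hs⟩ := reduce s
  rcases hs with hs | hs
  · rw [hs, Z_add_int]
    exact key t (by rw [ht]; exact habs) hti
  · rw [hs, Z_add_int, Z_add_pi, norm_neg]
    exact key t (by rw [ht]; exact habs) hti

/-- **GLUE**, final form -/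
theorem glue' (hη : 0 < η) {e : ℂ → ℂ} (he : Sy η e)
    (hd : ∀ s : ℂ, |s.re| < η → DifferentiableAt ℂ e s) :
    ∃ f : ℂ → ℂ, DifferentiableOn ℂ f (Metric.ball 0 1) ∧
      ∀ s : ℂ, 0 ≤ s.re → s.re < η → f (Z η s) = e s := by
  obtain ⟨f, h1, h2⟩ := glue hη he hd
  exact ⟨f, h1, fun s h0 h1' => h2 s h0 h1' (Z_norm_lt_one hη h0 h1')⟩

end Pool.Agent.Lib.MP_0430e4_lc.YG
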