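import Pool.Agent.Lib.MP_0430e4_lc.YG.B2

/-!
# The section of `Z`, the functions `om` (harmonic measure of the circle) and `UG` (the majorant)
on the closed disc
-/

set_option autoImplicit false

namespace Pool.Agent.Lib.MP_0430e4_lc.YG

open Complex Filter Topology Set
open Lower (zz GG)

variable {η : ℝ}

/-- symmetries of real functions on the closed strip -/
structure Sw (η : ℝ) (e : ℂ → ℝ) : Prop where
  per : ∀ s, 0 ≤ s.re → s.re ≤ η → e (s + 2 * Real.pi * I) = e s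
  sheet : ∀ s, s.re = 0 → e (Real.pi * I - s) = e s
  rim : ∀ s s', s.re = η → s'.re = η → e s = e s'

theorem Sw.int {e : ℂ → ℝ} (he : Sw η e) (s : ℂ) (h0 : 0 ≤ s.re) (h1 : s.re ≤ η) (k : ℤ) :
    e (s + k * (2 * Real.pi * I)) = e s := by
  have hp : ∀ (m : ℕ) (s : ℂ), 0 ≤ s.re → s.re ≤ η → e (s + m * (2 * Real.pi * I)) = e s := by
    intro m
    induction m with
    | zero => intro s _ _; simp
    | succ m ih =>
      intro s h0 h1
      have : s + ((m + 1 : ℕ) : ℂ) * (2 * Real.pi * I)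
          = (s + 2 * Real.pi * I) + m * (2 * Real.pi * I) := by
        push_cast; ring
      rw [this, ih _ (by simpa using h0) (by simpa using h1), he.per s h0 h1]
  obtain ⟨m, rfl | rfl⟩ := Int.eq_nat_or_neg k
  · exact_mod_cast hp m s h0 h1
  · have h := hp m (s + ((-(m : ℤ) : ℤ) : ℂ) * (2 * Real.pi * I)) (by simpa using h0)
      (by simpa using h1)
    rw [← h]
    congr 1
    push_cast
    ring

/-- such functions are functions of `Z` on the closed strip -/
theorem Sw.wd (hη : 0 < η) {e : ℂ → ℝ} (he : Sw η e) {s s' : ℂ} (h0 : 0 ≤ s.re) (h1 : s.re ≤ η)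
    (h0' : 0 ≤ s'.re) (h1' : s'.re ≤ η) (h : Z η s = Z η s') : e s = e s' := by
  have hpi := Real.pi_pos
  rcases h1.lt_or_eq with g1 | g1
  swap
  · have h2 : ‖Z η s'‖ = 1 := by rw [← h, Z_norm hη g1]
    rcases h1'.lt_or_eq with g2 | g2
    · have := Z_norm_lt_one hη h0' g2
      rw [h2] at this
      exact absurd this (lt_irrefl _)
    · exact he.rim s s' g1 g2
  rcases h1'.lt_or_eq with g1' | g1'
  swap
  · have h2 : ‖Z η s‖ = 1 := by rw [h, Z_norm hη g1']
    have := Z_norm_lt_one hη h0 g1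
    rw [h2] at this
    exact absurd this (lt_irrefl _)
  obtain ⟨t, k, ht, hti, hs⟩ := reduce s
  obtain ⟨t', k', ht', hti', hs'⟩ := reduce s'
  rw [← ht] at h0 g1
  rw [← ht'] at h0' g1'
  -- the mixed case
  have mixed : ∀ t t' : ℂ, 0 ≤ t.re → t.re < η → |t.im| ≤ Real.pi / 2 → 0 ≤ t'.re → t'.re < η →
      |t'.im| ≤ Real.pi / 2 → Z η t = -Z η t' → e t = e (t' + Real.pi * I) := by
    intro t t' a0 a1 ai b0 b1 bi hZ
    have r1 := Z_re_nonneg hη a0 a1 ai
    have r2 := Z_re_nonneg hη b0 b1 bi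
    have r3 : (Z η t).re = -(Z η t').re := by rw [hZ, Complex.neg_re]
    have r4 : (Z η t).re = 0 := by linarith
    have r5 : (Z η t').re = 0 := by linarith
    have r6 : Z η t = Z η (starRingEnd ℂ t') := by
      rw [Z_conj, hZ]
      apply Complex.ext
      · simp [r5]
      · simp
    have r7 : t = starRingEnd ℂ t' :=
      Z_inj hη a0 a1 ai (by simpa using b0) (by simpa using b1) (by simpa using bi) r6
    have r8 : t' = starRingEnd ℂ t := by rw [r7, Complex.conj_conj]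
    rcases of_re_eq_zero hη a0 a1 ai r4 with h2 | h2 | h2
    · have : t' + Real.pi * I = Real.pi * I - t := by
        rw [r8]
        apply Complex.ext
        · simp [h2]
        · simp
          ring
      rw [this, he.sheet t h2]
    · have : t' + Real.pi * I = t := by
        rw [r8]
        apply Complex.ext
        · simp
        · simp [h2]
          ring
      rw [this]
    · have : t' + Real.pi * I = t + 2 * Real.pi * I := by
        rw [r8]
        apply Complex.ext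
        · simp
        · simp [h2]
          ring
      rw [this, he.per t a0 a1.le]
  have hB : 0 ≤ (t + Real.pi * I).re ∧ (t + Real.pi * I).re ≤ η := by
    have : (t + Real.pi * I).re = t.re := by simp
    rw [this]
    exact ⟨h0, g1.le⟩
  have hB' : 0 ≤ (t' + Real.pi * I).re ∧ (t' + Real.pi * I).re ≤ η := by
    have : (t' + Real.pi * I).re = t'.re := by simp
    rw [this]
    exact ⟨h0', g1'.le⟩
  rcases hs with hs | hs <;> rcases hs' with hs' | hs'
  · rw [hs, hs', Z_add_int, Z_add_int] at h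
    rw [hs, hs', he.int _ h0 g1.le, he.int _ h0' g1'.le, Z_inj hη h0 g1 hti h0' g1' hti' h]
  · rw [hs, hs', Z_add_int, Z_add_int, Z_add_pi] at h
    rw [hs, hs', he.int _ h0 g1.le, he.int _ hB'.1 hB'.2]
    exact mixed t t' h0 g1 hti h0' g1' hti' h
  · rw [hs, hs', Z_add_int, Z_add_int, Z_add_pi] at h
    rw [hs, hs', he.int _ hB.1 hB.2, he.int _ h0' g1'.le]
    exact (mixed t' t h0' g1' hti' h0 g1 hti h.symm).symm
  · rw [hs, hs', Z_add_int, Z_add_int, Z_add_pi, Z_add_pi] at h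
    have h2 : Z η t = Z η t' := neg_injective h
    rw [hs, hs', he.int _ hB.1 hB.2, he.int _ hB'.1 hB'.2, Z_inj hη h0 g1 hti h0' g1' hti' h2]

/-! ### the section -/

open Classical in
/-- a section of `Z` -/
noncomputable def sec (η : ℝ) (z : ℂ) : ℂ :=
  if h : ∃ s, s ∈ Kc η ∧ Z η s = z then h.choose else 0

theorem sec_spec (hη : 0 < η) {z : ℂ} (hz : ‖z‖ ≤ 1) : sec η z ∈ Kc η ∧ Z η (sec η z) = z := by
  have h : ∃ s, s ∈ Kc η ∧ Z η s = z := by
    obtain ⟨s, h1, h2, h3⟩ := surj hη hz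
    exact ⟨s, mem_Kc.2 ⟨h1, h2⟩, h3⟩
  unfold sec
  rw [dif_pos h]
  exact h.choose_spec

theorem sec_re_nonneg (hη : 0 < η) {z : ℂ} (hz : ‖z‖ ≤ 1) : 0 ≤ (sec η z).re :=
  (mem_Kc.1 (sec_spec hη hz).1).1.1

theorem sec_re_le (hη : 0 < η) {z : ℂ} (hz : ‖z‖ ≤ 1) : (sec η z).re ≤ η :=
  (mem_Kc.1 (sec_spec hη hz).1).1.2

theorem Z_sec (hη : 0 < η) {z : ℂ} (hz : ‖z‖ ≤ 1) : Z η (sec η z) = z := (sec_spec hη hz).2

theorem Z_norm_le (hη : 0 < η) {s : ℂ} (h0 : 0 ≤ s.re) (h1 : s.re ≤ η) : ‖Z η s‖ ≤ 1 := by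
  rcases h1.lt_or_eq with h | h
  · exact (Z_norm_lt_one hη h0 h).le
  · exact (Z_norm hη h).le

/-- pull back to the closed disc -/
theorem Sw.pull (hη : 0 < η) {e : ℂ → ℝ} (he : Sw η e) {s : ℂ} (h0 : 0 ≤ s.re) (h1 : s.re ≤ η) :
    e (sec η (Z η s)) = e s := by
  have hz := Z_norm_le hη h0 h1
  exact he.wd hη (sec_re_nonneg hη hz) (sec_re_le hη hz) h0 h1 (Z_sec hη hz)

/-- continuity of the pull back -/
theorem Sw.cont (hη : 0 < η) {e : ℂ → ℝ} (he : Sw η e)
    (hc : ContinuousOn e {s : ℂ | 0 ≤ s.re ∧ s.re ≤ η}) :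
    ContinuousOn (fun z => e (sec η z)) (Metric.closedBall 0 1) := by
  intro z0 h0
  have h0' : ‖z0‖ ≤ 1 := by simpa using h0
  unfold ContinuousWithinAt
  rw [tendsto_iff_ultrafilter]
  intro g hg
  have hev : ∀ᶠ z in (g : Filter ℂ), ‖z‖ ≤ 1 := by
    have h2 : Metric.closedBall (0 : ℂ) 1 ∈ (g : Filter ℂ) := hg self_mem_nhdsWithin
    filter_upwards [h2] with z hz
    simpa using hz
  have hK : (g.map (sec η) : Filter ℂ) ≤ 𝓟 (Kc η) := by
    rw [le_principal_iff, Ultrafilter.mem_coe, Ultrafilter.mem_map]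
    filter_upwards [hev] with z hz
    exact (sec_spec hη hz).1
  obtain ⟨s, hs, hlim⟩ := Kc_compact.ultrafilter_le_nhds (g.map (sec η)) hK
  have hσs : Tendsto (sec η) (g : Filter ℂ) (𝓝 s) := hlim
  have hs' := mem_Kc.1 hs
  have h1 : Tendsto (fun z => Z η (sec η z)) (g : Filter ℂ) (𝓝 (Z η s)) :=
    (Z_cont hη (by rw [abs_of_nonneg hs'.1.1]; exact hs'.1.2)).tendsto.comp hσs
  have h2 : Tendsto (fun z => Z η (sec η z)) (g : Filter ℂ) (𝓝 z0) := by
    have h3 : Tendsto (fun z : ℂ => z) (g : Filter ℂ) (𝓝 z0) := hg.trans nhdsWithin_le_nhds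
    refine h3.congr' ?_
    filter_upwards [hev] with z hz
    exact (Z_sec hη hz).symm
  have h3 : Z η s = z0 := tendsto_nhds_unique h1 h2
  have h4 : e s = e (sec η z0) :=
    he.wd hη hs'.1.1 hs'.1.2 (sec_re_nonneg hη h0') (sec_re_le hη h0') (by rw [h3, Z_sec hη h0'])
  show Tendsto (fun z => e (sec η z)) (g : Filter ℂ) (𝓝 (e (sec η z0)))
  rw [← h4]
  have h5 := (hc s ⟨hs'.1.1, hs'.1.2⟩).tendsto
  refine h5.comp ?_
  rw [tendsto_nhdsWithin_iff]
  refine ⟨hσs, ?_⟩
  filter_upwards [hev] with z hz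
  exact ⟨sec_re_nonneg hη hz, sec_re_le hη hz⟩

/-! ### `om` -/

/-- the harmonic measure (times `η`) of the unit circle in the disc minus the slit -/
noncomputable def om (η : ℝ) (z : ℂ) : ℝ := (sec η z).re

theorem sw_re : Sw η (fun s => s.re) where
  per := by intro s _ _; simp
  sheet := by
    intro s h
    simp [h]
  rim := by
    intro s s' h h'
    rw [h, h']

theorem om_Z (hη : 0 < η) {s : ℂ} (h0 : 0 ≤ s.re) (h1 : s.re ≤ η) : om η (Z η s) = s.re :=
  sw_re.pull hη h0 h1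

theorem om_nonneg (hη : 0 < η) {z : ℂ} (hz : ‖z‖ ≤ 1) : 0 ≤ om η z := sec_re_nonneg hη hz

theorem om_le (hη : 0 < η) {z : ℂ} (hz : ‖z‖ ≤ 1) : om η z ≤ η := sec_re_le hη hz

theorem om_lt (hη : 0 < η) {z : ℂ} (hz : ‖z‖ < 1) : om η z < η :=
  re_lt_of_norm hη (sec_spec hη hz.le).1 (by rw [Z_sec hη hz.le]; exact hz)

theorem om_cont (hη : 0 < η) : ContinuousOn (om η) (Metric.closedBall 0 1) :=
  sw_re.cont hη Complex.continuous_re.continuousOn

theorem om_rim (hη : 0 < η) {z : ℂ} (hz : ‖z‖ = 1) : om η z = η := by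
  rcases (om_le hη hz.le).lt_or_eq with h | h
  · have := Z_norm_lt_one hη (sec_re_nonneg hη hz.le) h
    rw [Z_sec hη hz.le, hz] at this
    exact absurd this (lt_irrefl _)
  · exact h

theorem om_neg (hη : 0 < η) {z : ℂ} (hz : ‖z‖ ≤ 1) : om η (-z) = om η z := by
  have h0 := sec_re_nonneg hη hz
  have h1 := sec_re_le hη hz
  have e1 : Z η (sec η z + Real.pi * I) = -z := by rw [Z_add_pi, Z_sec hη hz]
  have e2 : (sec η z + Real.pi * I).re = (sec η z).re := by simp
  rw [← e1, om_Z hη (by rw [e2]; exact h0) (by rw [e2]; exact h1), e2]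
  rfl

theorem om_conj (hη : 0 < η) {z : ℂ} (hz : ‖z‖ ≤ 1) : om η (starRingEnd ℂ z) = om η z := by
  have h0 := sec_re_nonneg hη hz
  have h1 := sec_re_le hη hz
  have e1 : Z η (starRingEnd ℂ (sec η z)) = starRingEnd ℂ z := by rw [Z_conj, Z_sec hη hz]
  rw [← e1, om_Z hη (by simpa using h0) (by simpa using h1)]
  simp
  rfl

/-! ### `UG` -/

/-- the majorant on the closed disc -/
noncomputable def UG (η c : ℝ) (z : ℂ) : ℝ := (GG (Real.exp (-η) ^ 2) c (sec η z)).re

theorem exp_per (s : ℂ) : Complex.exp (2 * (s + 2 * Real.pi * I)) = Complex.exp (2 * s) := by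
  have : 2 * (s + 2 * Real.pi * I) = 2 * s + (2 : ℕ) * (2 * Real.pi * I) := by push_cast; ring
  rw [this, Complex.exp_add, Complex.exp_nat_mul_two_pi_mul_I, mul_one]

theorem exp_sheet (s : ℂ) : Complex.exp (2 * (Real.pi * I - s)) = (Complex.exp (2 * s))⁻¹ := by
  have : 2 * (Real.pi * I - s) = 2 * Real.pi * I - 2 * s := by ring
  rw [this, Complex.exp_sub, Complex.exp_two_pi_mul_I, one_div]

theorem exp_add_pi (s : ℂ) : Complex.exp (2 * (s + Real.pi * I)) = Complex.exp (2 * s) := by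
  have : 2 * (s + Real.pi * I) = 2 * s + 2 * Real.pi * I := by ring
  rw [this, Complex.exp_add, Complex.exp_two_pi_mul_I, mul_one]

section
variable (hη : 0 < η)
include hη

theorem GG_sheet (c : ℝ) {s : ℂ} (h : s.re = 0) :
    (GG (Real.exp (-η) ^ 2) c (Real.pi * I - s)).re = (GG (Real.exp (-η) ^ 2) c s).re := by
  have h2 : (Real.pi * I - s).re = 0 := by simp [h]
  rw [Lower.GG_re_zero r0 (r1 hη) c h2, Lower.GG_re_zero r0 (r1 hη) c h, exp_sheet]
  have h3 : ‖Complex.exp (2 * s)‖ = 1 := by rw [Lower.norm_exp_two, h]; simp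
  rw [Complex.inv_eq_conj h3, Lower.re_T_conj]

omit hη in
theorem GG_add_pi (c : ℝ) (s : ℂ) :
    (GG (Real.exp (-η) ^ 2) c (s + Real.pi * I)).re = (GG (Real.exp (-η) ^ 2) c s).re := by
  rw [Lower.GG_re, Lower.GG_re, exp_add_pi]
  simp

omit hη in
theorem GG_per (c : ℝ) (s : ℂ) :
    (GG (Real.exp (-η) ^ 2) c (s + 2 * Real.pi * I)).re = (GG (Real.exp (-η) ^ 2) c s).re := by
  have : s + 2 * Real.pi * I = (s + Real.pi * I) + Real.pi * I := by ring
  rw [this, GG_add_pi, GG_add_pi]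

theorem eta_r : Lower.eta (Real.exp (-η) ^ 2) = η := Lower.eta_eq hη

theorem sw_GG (c : ℝ) : Sw η (fun s => (GG (Real.exp (-η) ^ 2) c s).re) where
  per := fun s _ _ => GG_per c s
  sheet := fun s h => GG_sheet hη c h
  rim := by
    intro s s' h h'
    show (GG (Real.exp (-η) ^ 2) c s).re = (GG (Real.exp (-η) ^ 2) c s').re
    rw [Lower.GG_re_outer r0 (r1 hη) c (by rw [eta_r hη]; exact h),
      Lower.GG_re_outer r0 (r1 hη) c (by rw [eta_r hη]; exact h')]

theorem UG_Z (c : ℝ) {s : ℂ} (h0 : 0 ≤ s.re) (h1 : s.re ≤ η) :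
    UG η c (Z η s) = (GG (Real.exp (-η) ^ 2) c s).re := (sw_GG hη c).pull hη h0 h1

theorem UG_rim (c : ℝ) {z : ℂ} (hz : ‖z‖ = 1) : UG η c z = c := by
  have h := om_rim hη hz
  exact Lower.GG_re_outer r0 (r1 hη) c (by rw [eta_r hη]; exact h)

theorem UG_cont (c : ℝ) : ContinuousOn (UG η c) (Metric.closedBall 0 1) := by
  refine (sw_GG hη c).cont hη ?_
  intro s hs
  have h := Lower.GG_diff r0 (r1 hη) c hs.1 (by rw [eta_r hη]; exact hs.2)
  exact (Complex.continuous_re.continuousAt.comp h.continuousAt).continuousWithinAt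

theorem UG_neg (c : ℝ) {z : ℂ} (hz : ‖z‖ ≤ 1) : UG η c (-z) = UG η c z := by
  have h0 := sec_re_nonneg hη hz
  have h1 := sec_re_le hη hz
  have e1 : Z η (sec η z + Real.pi * I) = -z := by rw [Z_add_pi, Z_sec hη hz]
  have e2 : (sec η z + Real.pi * I).re = (sec η z).re := by simp
  rw [← e1, UG_Z hη c (by rw [e2]; exact h0) (by rw [e2]; exact h1), GG_add_pi]
  rfl

/-- changing the level changes the majorant by a multiple of `om` -/
theorem UG_add (c e : ℝ) (z : ℂ) : UG η (c + e) z = UG η c z + e / η * om η z := by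
  unfold UG om
  rw [Lower.GG_re, Lower.GG_re, eta_r hη]
  ring

/-- the three lines bound at every point of the closed disc -/
theorem three_lines_disc (c : ℝ) {F : ℂ → ℂ} (hF : Differentiable ℂ F) {N : ℝ} (n : ℕ)
    (h1 : ∀ z : ℂ, ‖z‖ = 1 → ‖F z‖ ≤ N * Real.exp (n * c))
    (h2 : ∀ y : ℝ, ‖F ((y : ℂ) * Complex.I)‖ ≤ N * √(1 + y ^ 2) ^ n)
    {z : ℂ} (hz : ‖z‖ ≤ 1) : ‖F z‖ ≤ N * Real.exp (n * UG η c z) := by
  have h := Lower.three_lines r0 (r1 hη) c hF n h1 h2 (s := sec η z) (sec_re_nonneg hη hz)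
    (by rw [eta_r hη]; exact sec_re_le hη hz)
  have e : zz (Real.exp (-η) ^ 2) (sec η z) = z := Z_sec hη hz
  rw [e] at h
  exact h

end

end Pool.Agent.Lib.MP_0430e4_lc.YG
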