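import Pool.Agent.Lib.MP_0430e4_lc.Lower.Strip2
import Pool.Agent.Lib.MP_0430e4_lc.LPLOW.Rect
import Pool.Agent.Lib.MP_0430e4_lc.LPLOW.Jac

/-!
# GLUE, part 1: the strip map `Z`, symmetries, derivative

`Z η s = zz (e^(-η))^2 s` maps the closed strip `0 ≤ Re s ≤ η` onto the closed unit disc.
-/

set_option autoImplicit false

namespace Pool.Agent.Lib.MP_0430e4_lc.YG

open Complex LPLOW Filter Topology Set
open Lower (zz eta)

/-- the strip map -/
noncomputable def Z (η : ℝ) (s : ℂ) : ℂ := zz (Real.exp (-η) ^ 2) s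

/-- `S (cL η)`: `Z = tanh (LL)` -/
noncomputable def LL (η : ℝ) (s : ℂ) : ℂ := S (cL η) s

/-- derivative of `LL` -/
noncomputable def AA (η : ℝ) (s : ℂ) : ℂ := S (cA η) s

variable {η : ℝ}

theorem exp_two_neg (s : ℂ) : Complex.exp (2 * -s) = (Complex.exp (2 * s))⁻¹ := by
  rw [← Complex.exp_neg]
  congr 1
  ring

theorem Z_neg (s : ℂ) : Z η (-s) = -Z η s := by
  unfold Z zz
  rw [exp_two_neg, Lower.T2_inv, Complex.sinh_neg]
  ring

theorem Z_sheet (s : ℂ) : Z η (Real.pi * I - s) = Z η s := by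
  unfold Z zz
  have h1 : Complex.exp (2 * (Real.pi * I - s)) = (Complex.exp (2 * s))⁻¹ := by
    rw [← Complex.exp_neg]
    have : 2 * (Real.pi * I - s) = -(2 * s) + 2 * Real.pi * I := by ring
    rw [this, Complex.exp_add, Complex.exp_two_pi_mul_I, mul_one]
  have h2 : Complex.sinh (Real.pi * I - s) = Complex.sinh s := by
    rw [Complex.sinh_sub, Complex.sinh_mul_I, Complex.cosh_mul_I, Complex.sin_pi, Complex.cos_pi]
    ring
  rw [h1, h2, Lower.T2_inv]

theorem Z_add_pi (s : ℂ) : Z η (s + Real.pi * I) = -Z η s := by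
  have h := Z_sheet (η := η) (-s)
  rw [Z_neg] at h
  rw [← h]
  congr 1
  ring

theorem Z_add_two_pi (s : ℂ) : Z η (s + 2 * Real.pi * I) = Z η s := by
  have h : s + 2 * Real.pi * I = (s + Real.pi * I) + Real.pi * I := by ring
  rw [h, Z_add_pi, Z_add_pi, neg_neg]

theorem Z_add_int (s : ℂ) (k : ℤ) : Z η (s + k * (2 * Real.pi * I)) = Z η s := by
  have hp : ∀ (m : ℕ) (s : ℂ), Z η (s + m * (2 * Real.pi * I)) = Z η s := by
    intro m
    induction m with
    | zero => intro s; simp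
    | succ m ih =>
      intro s
      have : s + ((m + 1 : ℕ) : ℂ) * (2 * Real.pi * I)
          = (s + 2 * Real.pi * I) + m * (2 * Real.pi * I) := by
        push_cast; ring
      rw [this, ih, Z_add_two_pi]
  obtain ⟨m, rfl | rfl⟩ := Int.eq_nat_or_neg k
  · exact_mod_cast hp m s
  · have h := hp m (s + ((-(m : ℤ) : ℤ) : ℂ) * (2 * Real.pi * I))
    rw [← h]
    congr 1
    push_cast
    ring

theorem Z_conj (s : ℂ) : Z η (starRingEnd ℂ s) = starRingEnd ℂ (Z η s) := by
  unfold Z zz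
  have h1 : Complex.exp (2 * (starRingEnd ℂ) s) = (starRingEnd ℂ) (Complex.exp (2 * s)) := by
    rw [← Complex.exp_conj]
    congr 1
    rw [map_mul]
    congr 1
    exact (Complex.conj_ofNat 2).symm
  have h2 : Lower.T2 (Lower.ca (Real.exp (-η) ^ 2)) ((starRingEnd ℂ) (Complex.exp (2 * s)))
      = (starRingEnd ℂ) (Lower.T2 (Lower.ca (Real.exp (-η) ^ 2)) (Complex.exp (2 * s))) :=
    (Lower.T2_conj _ _).symm
  rw [h1, h2, map_mul, map_mul, map_mul, Complex.conj_ofReal, Complex.sinh_conj, Complex.exp_conj,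
    Complex.conj_ofNat]

/-- on `Im s = π/2` the value is imaginary -/
theorem Z_re_line {s : ℂ} (h : s.im = Real.pi / 2) : (Z η s).re = 0 := by
  have h1 := Z_sheet (η := η) s
  have h2 : (Real.pi : ℂ) * I - s = -(starRingEnd ℂ) s := by
    apply Complex.ext
    · simp
    · simp [h]
      ring
  rw [h2, Z_neg, Z_conj] at h1
  have h3 := congrArg Complex.re h1
  simp at h3
  linarith

theorem Z_re_line' {s : ℂ} (h : s.im = -(Real.pi / 2)) : (Z η s).re = 0 := by
  have h1 := Z_re_line (η := η) (s := (starRingEnd ℂ) s) (by simp [h])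
  rw [Z_conj, Complex.conj_re] at h1
  exact h1

/-- on `Re s = 0` the value is imaginary -/
theorem Z_re_zero {s : ℂ} (h : s.re = 0) : (Z η s).re = 0 := by
  have h2 : (starRingEnd ℂ) s = -s := by
    apply Complex.ext <;> simp [h]
  have h1 := Z_conj (η := η) s
  rw [h2, Z_neg] at h1
  have h3 := congrArg Complex.re h1
  simp at h3
  linarith

theorem Z_zero : Z η 0 = 0 := by
  unfold Z zz
  simp

theorem r0 : (0 : ℝ) < Real.exp (-η) ^ 2 := by positivity

theorem isOpen_str : IsOpen {w : ℂ | |w.re| < η} := Jac.strip_isOpen η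

section
variable (hη : 0 < η)
include hη

theorem r1 : Real.exp (-η) ^ 2 < 1 := by
  have h1 : Real.exp (-η) < 1 := by rw [Real.exp_lt_one_iff]; linarith
  have h2 := Real.exp_pos (-η)
  nlinarith

theorem Z_norm {s : ℂ} (h : s.re = η) : ‖Z η s‖ = 1 :=
  Lower.zz_norm r0 (r1 hη) (by rw [Lower.eta_eq hη]; exact h)

theorem Z_diff {s : ℂ} (h : |s.re| ≤ η) : DifferentiableAt ℂ (Z η) s := by
  rcases le_total 0 s.re with h0 | h0
  · exact Lower.zz_diff r0 (r1 hη) h0 (by rw [Lower.eta_eq hη]; exact (abs_le.1 h).2)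
  · have h1 : DifferentiableAt ℂ (Z η) (-s) :=
      Lower.zz_diff r0 (r1 hη) (by simpa using h0)
        (by rw [Lower.eta_eq hη]; simpa using (by linarith [(abs_le.1 h).1] : -s.re ≤ η))
    have h2 : (Z η) = fun t => -(Z η (-t)) := by
      funext t
      rw [Z_neg, neg_neg]
    rw [h2]
    exact (h1.comp s differentiableAt_id.neg).neg

theorem Z_cont {s : ℂ} (h : |s.re| ≤ η) : ContinuousAt (Z η) s := (Z_diff hη h).continuousAt

theorem one_sub_Z {s : ℂ} (h : |s.re| < η) :
    1 - Z η s = Complex.exp (-2 * LL η s) * (1 + Z η s) := by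
  rcases le_total 0 s.re with h0 | h0
  · exact Lower.one_sub_zz hη h0 (abs_lt.1 h).2
  · have h1 := Lower.one_sub_zz hη (s := -s) (by simpa using h0)
      (by simpa using (by linarith [(abs_lt.1 h).1] : -s.re < η))
    have h2 : zz (Real.exp (-η) ^ 2) (-s) = -Z η s := Z_neg (η := η) s
    have h3 : S (cL η) (-s) = -LL η s := S_neg_odd (cL_neg η) s
    rw [h2, h3] at h1
    have h4 : Complex.exp (-2 * LL η s) * Complex.exp (-2 * -LL η s) = 1 := by
      rw [← Complex.exp_add]
      simp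
    linear_combination (-Complex.exp (-2 * LL η s)) * h1 - (1 - Z η s) * h4

theorem one_add_Z_ne {s : ℂ} (h : |s.re| < η) : 1 + Z η s ≠ 0 := by
  intro h1
  have h2 := one_sub_Z hη h
  rw [h1, mul_zero] at h2
  have h3 : (2 : ℂ) = 0 := by linear_combination h1 + h2
  norm_num at h3

theorem one_sub_Z_ne {s : ℂ} (h : |s.re| < η) : 1 - Z η s ≠ 0 := by
  rw [one_sub_Z hη h]
  exact mul_ne_zero (Complex.exp_ne_zero _) (one_add_Z_ne hη h)

theorem LL_deriv {s : ℂ} (h : |s.re| < η) : HasDerivAt (LL η) (AA η s) s := hasDerivAt_L hη h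

theorem AA_diff {s : ℂ} (h : |s.re| < η) : DifferentiableAt ℂ (AA η) s :=
  (AA_hasDerivAt hη h).differentiableAt

/-- `Z' = AA (1 - Z²)` -/
theorem Z_deriv {s : ℂ} (h : |s.re| < η) : HasDerivAt (Z η) (AA η s * (1 - Z η s ^ 2)) s := by
  have hd := (Z_diff hη h.le).hasDerivAt
  set d := deriv (Z η) s with hdd
  have h1 : HasDerivAt (fun t => 1 - Z η t) (-d) s := by
    simpa using hd.const_sub 1
  have h2 : HasDerivAt (fun t => Complex.exp (-2 * LL η t) * (1 + Z η t))
      (Complex.exp (-2 * LL η s) * (-2 * AA η s) * (1 + Z η s)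
        + Complex.exp (-2 * LL η s) * d) s := by
    have e1 := ((LL_deriv hη h).const_mul (-2)).cexp
    have e2 : HasDerivAt (fun t => 1 + Z η t) d s := by simpa using hd.const_add 1
    exact e1.mul e2
  have h3 : (fun t => 1 - Z η t) =ᶠ[𝓝 s] fun t => Complex.exp (-2 * LL η t) * (1 + Z η t) := by
    filter_upwards [isOpen_str.mem_nhds h] with t ht
    exact one_sub_Z hη ht
  have h4 := h1.unique (h2.congr_of_eventuallyEq h3)
  have h5 := one_sub_Z hη h
  have h6 := one_add_Z_ne hη h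
  have h7 : d * 2 = (AA η s * (1 - Z η s ^ 2)) * 2 := by
    have e : Complex.exp (-2 * LL η s) * (1 + Z η s) = 1 - Z η s := h5.symm
    have h8 : (-d) * (1 + Z η s) = (-2 * AA η s) * (1 - Z η s) * (1 + Z η s) + (1 - Z η s) * d := by
      rw [h4]
      linear_combination (-2 * AA η s * (1 + Z η s) + d) * e
    linear_combination -h8
  have h9 : d = AA η s * (1 - Z η s ^ 2) := by
    have : (2 : ℂ) ≠ 0 := two_ne_zero
    exact mul_right_cancel₀ this h7
  rw [← h9]
  exact hd

end

end Pool.Agent.Lib.MP_0430e4_lc.YG
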