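import Pool.Agent.Lib.MP_0430e4_lc.YG.A1
import Pool.Agent.Lib.MP_0430e4_lc.LPLOW.ContI
import Pool.Agent.Lib.MP_0430e4_lc.LPLOW.Pos

/-!
# GLUE, part 2: `Re AA > 0` in the open rectangle, injectivity of `Z` on the closed rectangle
-/

set_option autoImplicit false

namespace Pool.Agent.Lib.MP_0430e4_lc.YG

open Complex LPLOW Filter Topology Set
open Lower (zz eta)

variable {η : ℝ}

theorem convex_rect (a b c d : ℝ) : Convex ℝ (Ioo a b ×ℂ Ioo c d) := by
  have h : (Ioo a b ×ℂ Ioo c d) = Complex.reLm ⁻¹' (Ioo a b) ∩ Complex.imLm ⁻¹' (Ioo c d) := rfl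
  rw [h]
  exact ((convex_Ioo a b).linear_preimage Complex.reLm).inter
    ((convex_Ioo c d).linear_preimage Complex.imLm)

theorem AA_neg (s : ℂ) : AA η (-s) = AA η s := S_neg (cA_neg η) s

theorem AA_conj (s : ℂ) : AA η (starRingEnd ℂ s) = starRingEnd ℂ (AA η s) := S_conj _ _

theorem AA_add_pi (s : ℂ) : AA η (s + Real.pi * I) = -AA η s := by
  unfold AA
  rw [Pos.S_add_pi]
  unfold S
  rw [← tsum_neg]
  congr 1
  funext k
  unfold Pos.tw
  by_cases hk : Odd k
  · rw [hk.neg_one_zpow]
    push_cast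
    ring
  · have : cA η k = 0 := by
      unfold cA
      rw [if_neg hk]
    simp [this]

theorem AA_sheet (s : ℂ) : AA η (Real.pi * I - s) = -AA η s := by
  rw [show (Real.pi : ℂ) * I - s = -s + Real.pi * I by ring, AA_add_pi, AA_neg]

theorem AA_re_line {s : ℂ} (h : s.im = Real.pi / 2) : (AA η s).re = 0 := by
  have h1 := AA_sheet (η := η) s
  have h2 : (Real.pi : ℂ) * I - s = -(starRingEnd ℂ) s := by
    apply Complex.ext
    · simp
    · simp [h]
      ring
  rw [h2, AA_neg, AA_conj] at h1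
  have h3 := congrArg Complex.re h1
  simp at h3
  linarith

theorem LL_neg (s : ℂ) : LL η (-s) = -LL η s := S_neg_odd (cL_neg η) s

theorem LL_conj (s : ℂ) : LL η (starRingEnd ℂ s) = starRingEnd ℂ (LL η s) := S_conj _ _

section
variable (hη : 0 < η)
include hη

theorem AA_zero_ne : AA η 0 ≠ 0 := by
  intro h
  have h1 := A_zero_pos hη
  have h2 : S (cA η) 0 = 0 := h
  rw [h2] at h1
  simp at h1

theorem AA_analytic : AnalyticOnNhd ℂ (AA η) {w : ℂ | |w.re| < η} :=
  DifferentiableOn.analyticOnNhd (fun _ hs => (AA_diff hη hs).differentiableWithinAt) isOpen_str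

/-- `AA` does not vanish on a set with an accumulation point -/
theorem AA_frequently {s0 : ℂ} (h0 : |s0.re| < η) (h : ∃ᶠ s in 𝓝[≠] s0, AA η s = 0) : False := by
  have h1 := (AA_analytic hη).eqOn_zero_of_preconnected_of_frequently_eq_zero
    (Jac.strip_preconnected η) h0 h
  exact AA_zero_ne hη (h1 (x := 0) (by simpa using hη))

theorem AA_re_pos {s : ℂ} (hs : |s.re| < η) (hi : |s.im| < Real.pi / 2) : 0 < (AA η s).re := by
  have hnn : ∀ t : ℂ, |t.re| < η → |t.im| < Real.pi / 2 → 0 ≤ (AA η t).re :=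
    fun t h1 h2 => re_A_nonneg hη h1 h2.le
  rcases (hnn s hs hi).lt_or_eq with h | h
  · exact h
  exfalso
  set U : Set ℂ := Ioo (-η) η ×ℂ Ioo (-(Real.pi / 2)) (Real.pi / 2) with hU
  have hmem : ∀ t : ℂ, t ∈ U ↔ |t.re| < η ∧ |t.im| < Real.pi / 2 := by
    intro t
    rw [hU, Complex.mem_reProdIm, abs_lt, abs_lt]
    rfl
  have hUo : IsOpen U := isOpen_Ioo.reProdIm isOpen_Ioo
  have hUc : IsPreconnected U := by
    exact (convex_rect _ _ _ _).isPreconnected
  have hd : DifferentiableOn ℂ (fun t => Complex.exp (-AA η t)) U := by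
    intro t ht
    exact (AA_diff hη ((hmem t).1 ht).1).neg.cexp.differentiableWithinAt
  have hmax : IsMaxOn (norm ∘ fun t => Complex.exp (-AA η t)) U s := by
    intro t ht
    simp only [Function.comp_apply, Set.mem_ofPred_eq, Complex.norm_exp, Complex.neg_re]
    apply Real.exp_le_exp.2
    rw [← h]
    have := hnn t ((hmem t).1 ht).1 ((hmem t).1 ht).2
    linarith
  have hcn := Complex.eqOn_of_isPreconnected_of_isMaxOn_norm hUc hUo hd ((hmem s).2 ⟨hs, hi⟩) hmax
  -- limit point iπ/2
  have hpi := Real.pi_pos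
  have hz : Complex.exp (-AA η 0) = Complex.exp (-AA η s) :=
    hcn ((hmem 0).2 ⟨by simpa using hη, by simpa using hpi⟩)
  have hp : Complex.exp (-AA η (I * (Real.pi / 2))) = Complex.exp (-AA η s) := by
    have hcl : I * ((Real.pi : ℂ) / 2) ∈ closure U := by
      rw [hU, Complex.closure_reProdIm, closure_Ioo (by linarith), closure_Ioo (by linarith),
        Complex.mem_reProdIm]
      constructor
      · simp
        exact hη.le
      · simp
        have : ((Real.pi : ℂ) / 2).re = Real.pi / 2 := by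
          rw [show ((Real.pi : ℂ) / 2) = ((Real.pi / 2 : ℝ) : ℂ) by push_cast; ring,
            Complex.ofReal_re]
        linarith
    have hct : ContinuousAt (fun t => Complex.exp (-AA η t)) (I * ((Real.pi : ℂ) / 2)) :=
      (AA_diff hη (by simpa using hη)).continuousAt.neg.cexp
    rw [mem_closure_iff_clusterPt] at hcl
    have hne : (𝓝 (I * ((Real.pi : ℂ) / 2)) ⊓ 𝓟 U).NeBot := hcl
    have h1 : Tendsto (fun t => Complex.exp (-AA η t)) (𝓝 (I * ((Real.pi : ℂ) / 2)) ⊓ 𝓟 U)
        (𝓝 (Complex.exp (-AA η (I * ((Real.pi : ℂ) / 2))))) := hct.tendsto.mono_left inf_le_left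
    have h2 : Tendsto (fun t => Complex.exp (-AA η t)) (𝓝 (I * ((Real.pi : ℂ) / 2)) ⊓ 𝓟 U)
        (𝓝 (Complex.exp (-AA η s))) := by
      apply tendsto_const_nhds.congr'
      have : U ∈ (𝓝 (I * ((Real.pi : ℂ) / 2)) ⊓ 𝓟 U) := mem_inf_of_right (mem_principal_self _)
      filter_upwards [this] with t ht
      exact (hcn ht).symm
    exact tendsto_nhds_unique h1 h2
  have hpi0 : AA η (I * (Real.pi / 2)) = 0 := AA_pi
  rw [hpi0, neg_zero, Complex.exp_zero] at hp
  have h3 : Complex.exp (-AA η 0) = 1 := by rw [hz, ← hp]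
  have h4 := congrArg (‖·‖) h3
  simp only [Complex.norm_exp, norm_one, Complex.neg_re] at h4
  have h5 : (AA η 0).re = 0 := by
    have := (Real.exp_eq_one_iff _).1 h4
    linarith
  have h6 := A_zero_pos hη
  have h7 : (S (cA η) 0).re = 0 := h5
  linarith

omit hη in
/-- the value on the line `Im s = π/2` -/
theorem AA_line (x : ℝ) : AA η ((x : ℂ) + (Real.pi / 2 : ℝ) * I)
    = ((AA η ((x : ℂ) + (Real.pi / 2 : ℝ) * I)).im : ℂ) * I := by
  apply Complex.ext
  · simp
    exact AA_re_line (by simp)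
  · simp

/-- derivative of the imaginary part along the line -/
theorem AA_line_deriv {x : ℝ} (hx : |x| < η) :
    HasDerivAt (fun t : ℝ => (AA η ((t : ℂ) + (Real.pi / 2 : ℝ) * I)).im)
      (deriv (AA η) ((x : ℂ) + (Real.pi / 2 : ℝ) * I)).im x := by
  have h1 := (AA_diff hη (s := (x : ℂ) + (Real.pi / 2 : ℝ) * I) (by simpa using hx)).hasDerivAt
  have h2 : HasDerivAt (fun t : ℝ => (t : ℂ) + (Real.pi / 2 : ℝ) * I) 1 x := by
    simpa using (Complex.ofRealCLM.hasDerivAt (x := x)).add_const (((Real.pi / 2 : ℝ) : ℂ) * I)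
  have h3 := h1.scomp x h2
  have h4 := Complex.imCLM.hasFDerivAt.comp_hasDerivAt x h3
  refine h4.congr_deriv ?_
  simp

theorem AA_line_deriv_nonneg {x : ℝ} (hx : |x| < η) :
    0 ≤ (deriv (AA η) ((x : ℂ) + (Real.pi / 2 : ℝ) * I)).im := by
  have hpi := Real.pi_pos
  have h1 := (AA_diff hη (s := (x : ℂ) + (Real.pi / 2 : ℝ) * I) (by simpa using hx)).hasDerivAt
  set d := deriv (AA η) ((x : ℂ) + (Real.pi / 2 : ℝ) * I) with hd
  have h2 : HasDerivAt (fun t : ℝ => (x : ℂ) + t * I) I (Real.pi / 2) := by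
    have := ((Complex.ofRealCLM.hasDerivAt (x := Real.pi / 2)).mul_const I).const_add (x : ℂ)
    simpa using this
  have h3 := h1.scomp (Real.pi / 2) h2
  have h4 := Complex.reCLM.hasFDerivAt.comp_hasDerivAt (Real.pi / 2) h3
  have h5 : HasDerivAt (fun t : ℝ => (AA η ((x : ℂ) + t * I)).re) (-d.im) (Real.pi / 2) := by
    refine h4.congr_deriv ?_
    simp
  rw [hasDerivAt_iff_tendsto_slope] at h5
  have h6 : Tendsto (slope (fun t : ℝ => (AA η ((x : ℂ) + t * I)).re) (Real.pi / 2))
      (𝓝[<] (Real.pi / 2)) (𝓝 (-d.im)) :=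
    h5.mono_left (nhdsWithin_mono _ (fun t ht => ne_of_lt ht))
  have h7 : -d.im ≤ 0 := by
    refine le_of_tendsto h6 ?_
    filter_upwards [Ioo_mem_nhdsLT (show (0 : ℝ) < Real.pi / 2 by linarith)] with t ht
    rw [slope_def_field]
    have e1 : (AA η ((x : ℂ) + ((Real.pi / 2 : ℝ) : ℂ) * I)).re = 0 := AA_re_line (by simp)
    have e2 : 0 ≤ (AA η ((x : ℂ) + t * I)).re :=
      re_A_nonneg hη (by simpa using hx) (by
        simp
        rw [abs_of_pos ht.1]
        exact ht.2.le)
    rw [e1]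
    apply div_nonpos_of_nonneg_of_nonpos
    · linarith
    · linarith [ht.2]
  linarith

omit hη in
theorem AA_line_zero : (AA η (((0 : ℝ) : ℂ) + (Real.pi / 2 : ℝ) * I)).im = 0 := by
  have h : ((0 : ℝ) : ℂ) + ((Real.pi / 2 : ℝ) : ℂ) * I = I * (Real.pi / 2) := by
    push_cast
    ring
  rw [h]
  have : AA η (I * (Real.pi / 2)) = 0 := AA_pi
  rw [this]
  simp

theorem AA_line_mono : MonotoneOn (fun t : ℝ => (AA η ((t : ℂ) + (Real.pi / 2 : ℝ) * I)).im)
    (Ico 0 η) := by
  apply monotoneOn_of_deriv_nonneg (convex_Ico 0 η)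
  · intro t ht
    exact (AA_line_deriv hη (abs_lt.2 ⟨by linarith [ht.1], ht.2⟩)).continuousAt.continuousWithinAt
  · rw [interior_Ico]
    intro t ht
    exact (AA_line_deriv hη (abs_lt.2 ⟨by linarith [ht.1],
      ht.2⟩)).differentiableAt.differentiableWithinAt
  · rw [interior_Ico]
    intro t ht
    have h : |t| < η := abs_lt.2 ⟨by linarith [ht.1], ht.2⟩
    rw [(AA_line_deriv hη h).deriv]
    exact AA_line_deriv_nonneg hη h

theorem AA_line_pos {x : ℝ} (h0 : 0 < x) (h1 : x < η) :
    0 < (AA η ((x : ℂ) + (Real.pi / 2 : ℝ) * I)).im := by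
  have hm := AA_line_mono hη
  have hz := AA_line_zero (η := η)
  have hge : ∀ t : ℝ, 0 ≤ t → t < η → 0 ≤ (AA η ((t : ℂ) + (Real.pi / 2 : ℝ) * I)).im := by
    intro t ht0 ht1
    have := hm ⟨le_rfl, hη⟩ ⟨ht0, ht1⟩ ht0
    simp only at this
    linarith
  rcases (hge x h0.le h1).lt_or_eq with h | h
  · exact h
  exfalso
  -- AA vanishes on the segment
  have hzero : ∀ t : ℝ, 0 < t → t < x → AA η ((t : ℂ) + (Real.pi / 2 : ℝ) * I) = 0 := by
    intro t ht0 ht1
    have e1 := hge t ht0.le (ht1.trans h1)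
    have e2 := hm ⟨ht0.le, ht1.trans h1⟩ ⟨h0.le, h1⟩ ht1.le
    simp only at e2
    have e3 : (AA η ((t : ℂ) + (Real.pi / 2 : ℝ) * I)).im = 0 := by linarith
    rw [AA_line, e3]
    simp
  refine AA_frequently hη (s0 := ((x / 2 : ℝ) : ℂ) + (Real.pi / 2 : ℝ) * I)
    (by simp only [Complex.add_re, Complex.ofReal_re, Complex.mul_re, Complex.I_re, mul_zero,
          Complex.ofReal_im, Complex.I_im, mul_one, sub_self, add_zero]
        rw [abs_of_pos (by linarith)]; linarith) ?_
  have hmap : Tendsto (fun t : ℝ => (t : ℂ) + ((Real.pi / 2 : ℝ) : ℂ) * I) (𝓝[>] (x / 2))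
      (𝓝[≠] (((x / 2 : ℝ) : ℂ) + ((Real.pi / 2 : ℝ) : ℂ) * I)) := by
    apply tendsto_nhdsWithin_iff.2
    constructor
    · have : Continuous (fun t : ℝ => (t : ℂ) + ((Real.pi / 2 : ℝ) : ℂ) * I) := by fun_prop
      exact (this.tendsto (x / 2)).mono_left nhdsWithin_le_nhds
    · filter_upwards [self_mem_nhdsWithin] with t ht
      intro hcon
      have := congrArg Complex.re hcon
      simp at this
      have ht' : x / 2 < t := ht
      linarith
  refine hmap.frequently (Filter.Eventually.frequently ?_)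
  filter_upwards [Ioo_mem_nhdsGT (show x / 2 < x by linarith)] with t ht
  exact hzero t (by linarith [ht.1]) ht.2

/-- `AA` has no zero on the closed rectangle except at `± iπ/2` -/
theorem AA_ne {s : ℂ} (h0 : 0 ≤ s.re) (h1 : s.re < η) (hi : |s.im| ≤ Real.pi / 2)
    (hne : ¬ (s.re = 0 ∧ |s.im| = Real.pi / 2)) : AA η s ≠ 0 := by
  have habs : |s.re| < η := abs_lt.2 ⟨by linarith, h1⟩
  rcases hi.lt_or_eq with h | h
  · intro hz
    have := AA_re_pos hη habs h
    rw [hz] at this
    simp at this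
  · have hx : 0 < s.re := by
      rcases h0.lt_or_eq with h2 | h2
      · exact h2
      · exact absurd ⟨h2.symm, h⟩ hne
    have hp := AA_line_pos hη hx h1
    intro hz
    rcases abs_eq (by linarith [Real.pi_pos]) |>.1 h with h3 | h3
    · have e : ((s.re : ℂ) + ((Real.pi / 2 : ℝ) : ℂ) * I) = s := by
        apply Complex.ext <;> simp [h3]
      rw [e, hz] at hp
      simp at hp
    · have e : ((s.re : ℂ) + ((Real.pi / 2 : ℝ) : ℂ) * I) = starRingEnd ℂ s := by
        apply Complex.ext <;> simp [h3]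
      rw [e, AA_conj, hz] at hp
      simp at hp

theorem LL_im_le {s : ℂ} (hs : |s.re| < η) (hi : |s.im| ≤ Real.pi / 2) :
    |(LL η s).im| ≤ Real.pi / 4 := by
  have hpi := Real.pi_pos
  have key : ∀ t : ℂ, |t.re| < η → 0 ≤ t.im → t.im ≤ Real.pi / 2 → |(LL η t).im| ≤ Real.pi / 4 := by
    intro t h1 h2 h3
    have h4 : 0 ≤ (LL η t).im := im_L_nonneg hη h1 h2 (by linarith)
    rw [abs_of_nonneg h4]
    exact im_L_le hη h1 h2 (by linarith)
  rcases le_total 0 s.im with h | h
  · exact key s hs h (abs_le.1 hi).2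
  · have := key (starRingEnd ℂ s) (by simpa using hs) (by simpa using h)
      (by simpa using (by linarith [(abs_le.1 hi).1] : -s.im ≤ Real.pi / 2))
    rw [LL_conj, Complex.conj_im, abs_neg] at this
    exact this

/-- `LL` is injective on the closed rectangle -/
theorem LL_inj {a b : ℂ} (ha0 : 0 ≤ a.re) (ha1 : a.re < η) (hai : |a.im| ≤ Real.pi / 2)
    (hb0 : 0 ≤ b.re) (hb1 : b.re < η) (hbi : |b.im| ≤ Real.pi / 2) (h : LL η a = LL η b) :
    a = b := by
  have hpi := Real.pi_pos
  by_contra hab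
  have hai' := abs_le.1 hai
  have hbi' := abs_le.1 hbi
  -- points of the segment
  have hre : ∀ t : ℝ, 0 ≤ t → t ≤ 1 → |(a + t * (b - a)).re| < η := by
    intro t h0 h1
    have e : (a + t * (b - a)).re = (1 - t) * a.re + t * b.re := by simp; ring
    rw [e, abs_lt]
    constructor
    · nlinarith
    · nlinarith [mul_nonneg h0 (by linarith : 0 ≤ η - b.re),
        mul_nonneg (by linarith : (0 : ℝ) ≤ 1 - t) (by linarith : 0 ≤ η - a.re)]
  have him : ∀ t : ℝ, (a + t * (b - a)).im = (1 - t) * a.im + t * b.im := by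
    intro t; simp; ring
  by_cases hline : (a.im = Real.pi / 2 ∧ b.im = Real.pi / 2) ∨
      (a.im = -(Real.pi / 2) ∧ b.im = -(Real.pi / 2))
  · -- both on one boundary line: reduce to the upper one
    have key : ∀ x1 x2 : ℝ, 0 ≤ x1 → x1 < x2 → x2 < η →
        (LL η ((x1 : ℂ) + ((Real.pi / 2 : ℝ) : ℂ) * I)).im
          < (LL η ((x2 : ℂ) + ((Real.pi / 2 : ℝ) : ℂ) * I)).im := by
      intro x1 x2 h1 h12 h2
      have hd : ∀ t : ℝ, |t| < η → HasDerivAt
          (fun t : ℝ => (LL η ((t : ℂ) + ((Real.pi / 2 : ℝ) : ℂ) * I)).im)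
          (AA η ((t : ℂ) + (Real.pi / 2 : ℝ) * I)).im t := by
        intro t ht
        have e1 := LL_deriv hη (s := (t : ℂ) + (Real.pi / 2 : ℝ) * I) (by simpa using ht)
        have e2 : HasDerivAt (fun t : ℝ => (t : ℂ) + (Real.pi / 2 : ℝ) * I) 1 t := by
          simpa using (Complex.ofRealCLM.hasDerivAt (x := t)).add_const
            (((Real.pi / 2 : ℝ) : ℂ) * I)
        have e3 := e1.scomp t e2
        have e4 := Complex.imCLM.hasFDerivAt.comp_hasDerivAt t e3
        refine e4.congr_deriv ?_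
        simp
      have hmono : StrictMonoOn (fun t : ℝ => (LL η ((t : ℂ) + ((Real.pi / 2 : ℝ) : ℂ) * I)).im)
          (Icc x1 x2) := by
        apply strictMonoOn_of_deriv_pos (convex_Icc x1 x2)
        · intro t ht
          exact (hd t (abs_lt.2 ⟨by linarith [ht.1], by linarith [ht.2]⟩)).continuousAt.continuousWithinAt
        · rw [interior_Icc]
          intro t ht
          rw [(hd t (abs_lt.2 ⟨by linarith [ht.1], by linarith [ht.2]⟩)).deriv]
          exact AA_line_pos hη (by linarith [ht.1]) (by linarith [ht.2])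
      exact hmono ⟨le_rfl, h12.le⟩ ⟨h12.le, le_rfl⟩ h12
    have hne : a.re ≠ b.re := by
      intro he
      apply hab
      apply Complex.ext he
      rcases hline with h1 | h1
      · rw [h1.1, h1.2]
      · rw [h1.1, h1.2]
    have hcontra : ∀ c d : ℂ, 0 ≤ c.re → c.re < η → 0 ≤ d.re → d.re < η → c.im = Real.pi / 2 →
        d.im = Real.pi / 2 → c.re ≠ d.re → LL η c ≠ LL η d := by
      intro c d hc0 hc1 hd0 hd1 hc hd hn hEq
      have ec : ((c.re : ℂ) + ((Real.pi / 2 : ℝ) : ℂ) * I) = c := by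
        apply Complex.ext <;> simp [hc]
      have ed : ((d.re : ℂ) + ((Real.pi / 2 : ℝ) : ℂ) * I) = d := by
        apply Complex.ext <;> simp [hd]
      rcases lt_or_gt_of_ne hn with h1 | h1
      · have := key c.re d.re hc0 h1 hd1
        rw [ec, ed, hEq] at this
        exact lt_irrefl _ this
      · have := key d.re c.re hd0 h1 hc1
        rw [ec, ed, hEq] at this
        exact lt_irrefl _ this
    rcases hline with h1 | h1
    · exact hcontra a b ha0 ha1 hb0 hb1 h1.1 h1.2 hne h
    · refine hcontra (starRingEnd ℂ a) (starRingEnd ℂ b) (by simpa using ha0) (by simpa using ha1)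
        (by simpa using hb0) (by simpa using hb1) (by simp [h1.1]) (by simp [h1.2])
        (by simpa using hne) ?_
      rw [LL_conj, LL_conj, h]
  · -- the open segment is in the open rectangle
    have hint : ∀ t : ℝ, 0 < t → t < 1 → |(a + t * (b - a)).im| < Real.pi / 2 := by
      intro t h0 h1
      rw [him t, abs_lt]
      have p1 : 0 < 1 - t := by linarith
      constructor
      · by_contra hcon
        push Not at hcon
        have e1 : (1 - t) * (a.im + Real.pi / 2) + t * (b.im + Real.pi / 2) ≤ 0 := by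
          linarith
        have e2 : 0 ≤ (1 - t) * (a.im + Real.pi / 2) := mul_nonneg p1.le (by linarith)
        have e3 : 0 ≤ t * (b.im + Real.pi / 2) := mul_nonneg h0.le (by linarith)
        have e4 : (1 - t) * (a.im + Real.pi / 2) = 0 := by linarith
        have e5 : t * (b.im + Real.pi / 2) = 0 := by linarith
        apply hline
        right
        constructor
        · rcases mul_eq_zero.1 e4 with h | h <;> linarith
        · rcases mul_eq_zero.1 e5 with h | h <;> linarith
      · by_contra hcon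
        push Not at hcon
        have e1 : (1 - t) * (Real.pi / 2 - a.im) + t * (Real.pi / 2 - b.im) ≤ 0 := by
          linarith
        have e2 : 0 ≤ (1 - t) * (Real.pi / 2 - a.im) := mul_nonneg p1.le (by linarith)
        have e3 : 0 ≤ t * (Real.pi / 2 - b.im) := mul_nonneg h0.le (by linarith)
        have e4 : (1 - t) * (Real.pi / 2 - a.im) = 0 := by linarith
        have e5 : t * (Real.pi / 2 - b.im) = 0 := by linarith
        apply hline
        left
        constructor
        · rcases mul_eq_zero.1 e4 with h | h <;> linarith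
        · rcases mul_eq_zero.1 e5 with h | h <;> linarith
    have hba : b - a ≠ 0 := sub_ne_zero.2 (Ne.symm hab)
    have hd : ∀ t : ℝ, 0 ≤ t → t ≤ 1 → HasDerivAt
        (fun t : ℝ => (LL η (a + t * (b - a)) * starRingEnd ℂ (b - a)).re)
        (Complex.normSq (b - a) * (AA η (a + t * (b - a))).re) t := by
      intro t h0 h1
      have e1 := LL_deriv hη (s := a + t * (b - a)) (hre t h0 h1)
      have e2 : HasDerivAt (fun t : ℝ => a + t * (b - a)) (b - a) t := by
        have := ((Complex.ofRealCLM.hasDerivAt (x := t)).mul_const (b - a)).const_add a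
        simpa using this
      have e3 := (e1.scomp t e2).mul_const (starRingEnd ℂ (b - a))
      have e4 := Complex.reCLM.hasFDerivAt.comp_hasDerivAt t e3
      refine e4.congr_deriv ?_
      have e5 : (b - a) • AA η (a + t * (b - a)) * starRingEnd ℂ (b - a)
          = ((Complex.normSq (b - a) : ℝ) : ℂ) * AA η (a + t * (b - a)) := by
        rw [smul_eq_mul, mul_right_comm, Complex.mul_conj]
      simp only [Complex.reCLM_apply]
      rw [e5, Complex.re_ofReal_mul]
    have hmono : StrictMonoOn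
        (fun t : ℝ => (LL η (a + t * (b - a)) * starRingEnd ℂ (b - a)).re) (Icc 0 1) := by
      apply strictMonoOn_of_deriv_pos (convex_Icc 0 1)
      · intro t ht
        exact (hd t ht.1 ht.2).continuousAt.continuousWithinAt
      · rw [interior_Icc]
        intro t ht
        rw [(hd t ht.1.le ht.2.le).deriv]
        exact mul_pos (Complex.normSq_pos.2 hba)
          (AA_re_pos hη (hre t ht.1.le ht.2.le) (hint t ht.1 ht.2))
    have h3 := hmono (⟨le_rfl, zero_le_one⟩ : (0 : ℝ) ∈ Icc (0 : ℝ) 1)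
      (⟨zero_le_one, le_rfl⟩ : (1 : ℝ) ∈ Icc (0 : ℝ) 1) zero_lt_one
    simp only [Complex.ofReal_zero, zero_mul, add_zero, Complex.ofReal_one, one_mul,
      add_sub_cancel] at h3
    rw [h] at h3
    exact lt_irrefl _ h3

/-- `Z` is injective on the closed rectangle -/
theorem Z_inj {a b : ℂ} (ha0 : 0 ≤ a.re) (ha1 : a.re < η) (hai : |a.im| ≤ Real.pi / 2)
    (hb0 : 0 ≤ b.re) (hb1 : b.re < η) (hbi : |b.im| ≤ Real.pi / 2) (h : Z η a = Z η b) :
    a = b := by
  have hpi := Real.pi_pos
  have ha : |a.re| < η := abs_lt.2 ⟨by linarith, ha1⟩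
  have hb : |b.re| < η := abs_lt.2 ⟨by linarith, hb1⟩
  apply LL_inj hη ha0 ha1 hai hb0 hb1 hbi
  have h1 := one_sub_Z hη ha
  have h2 := one_sub_Z hη hb
  rw [h] at h1
  have h3 : Complex.exp (-2 * LL η a) = Complex.exp (-2 * LL η b) :=
    mul_right_cancel₀ (one_add_Z_ne hη hb) (h1.symm.trans h2)
  obtain ⟨n, hn⟩ := Complex.exp_eq_exp_iff_exists_int.1 h3
  have h4 := congrArg Complex.im hn
  simp only [Complex.mul_im, Complex.neg_re, Complex.re_ofNat, Complex.neg_im, Complex.im_ofNat,
    neg_zero, zero_mul, add_zero, Complex.add_im, Complex.intCast_re, Complex.intCast_im,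
    Complex.mul_re, Complex.ofReal_re, Complex.ofReal_im, sub_zero, Complex.I_re, mul_zero,
    Complex.I_im, mul_one, sub_self] at h4
  have h5 := abs_le.1 (LL_im_le hη ha hai)
  have h6 := abs_le.1 (LL_im_le hη hb hbi)
  have hn0 : n = 0 := by
    have e1 : (n : ℝ) * (2 * Real.pi) ≤ Real.pi := by linarith
    have e2 : -Real.pi ≤ (n : ℝ) * (2 * Real.pi) := by linarith
    have e3 : (n : ℝ) < 1 := by
      by_contra hcon
      push Not at hcon
      nlinarith
    have e4 : (-1 : ℝ) < n := by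
      by_contra hcon
      push Not at hcon
      nlinarith
    have e5 : n < 1 := by exact_mod_cast e3
    have e6 : -1 < n := by exact_mod_cast e4
    omega
  rw [hn0] at hn
  have h7 : (-2 : ℂ) ≠ 0 := by norm_num
  simp only [Int.cast_zero, zero_mul, add_zero] at hn
  exact mul_left_cancel₀ h7 hn

end

end Pool.Agent.Lib.MP_0430e4_lc.YG
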