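import Pool.Agent.Lib.MP_0430e4_lc.YG.A2

/-!
# GLUE, part 3: `Z` maps the closed strip onto the closed unit disc
-/

set_option autoImplicit false

namespace Pool.Agent.Lib.MP_0430e4_lc.YG

open Complex LPLOW Filter Topology Set
open Lower (zz eta)

variable {η : ℝ}

theorem LL_re_zero {s : ℂ} (h : s.re = 0) : (LL η s).re = 0 := by
  have h2 : (starRingEnd ℂ) s = -s := by
    apply Complex.ext <;> simp [h]
  have h1 := LL_conj (η := η) s
  rw [h2, LL_neg] at h1
  have h3 := congrArg Complex.re h1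
  simp at h3
  linarith

section
variable (hη : 0 < η)
include hη

theorem LL_re_pos {s : ℂ} (h0 : 0 < s.re) (h1 : s.re < η) (hi : |s.im| < Real.pi / 2) :
    0 < (LL η s).re := by
  have hd : ∀ t : ℝ, |t| < η → HasDerivAt
      (fun t : ℝ => (LL η ((t : ℂ) + ((s.im : ℝ) : ℂ) * I)).re)
      (AA η ((t : ℂ) + (s.im : ℝ) * I)).re t := by
    intro t ht
    have e1 := LL_deriv hη (s := (t : ℂ) + (s.im : ℝ) * I) (by simpa using ht)
    have e2 : HasDerivAt (fun t : ℝ => (t : ℂ) + (s.im : ℝ) * I) 1 t := by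
      simpa using (Complex.ofRealCLM.hasDerivAt (x := t)).add_const (((s.im : ℝ) : ℂ) * I)
    have e3 := e1.scomp t e2
    have e4 := Complex.reCLM.hasFDerivAt.comp_hasDerivAt t e3
    refine e4.congr_deriv ?_
    simp
  have hmono : StrictMonoOn (fun t : ℝ => (LL η ((t : ℂ) + ((s.im : ℝ) : ℂ) * I)).re)
      (Icc 0 s.re) := by
    apply strictMonoOn_of_deriv_pos (convex_Icc 0 s.re)
    · intro t ht
      exact (hd t (abs_lt.2 ⟨by linarith [ht.1], by linarith [ht.2]⟩)).continuousAt.continuousWithinAt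
    · rw [interior_Icc]
      intro t ht
      have habs : |t| < η := abs_lt.2 ⟨by linarith [ht.1], by linarith [ht.2]⟩
      rw [(hd t habs).deriv]
      exact AA_re_pos hη (by simpa using habs) (by simpa using hi)
  have h2 := hmono ⟨le_rfl, h0.le⟩ ⟨h0.le, le_rfl⟩ h0
  simp only at h2
  have e1 : (LL η (((0 : ℝ) : ℂ) + ((s.im : ℝ) : ℂ) * I)).re = 0 := LL_re_zero (by simp)
  have e2 : ((s.re : ℂ) + ((s.im : ℝ) : ℂ) * I) = s := Complex.re_add_im s
  rw [e1, e2] at h2
  exact h2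

theorem LL_im_lt {s : ℂ} (hs : |s.re| < η) (hi : |s.im| < Real.pi / 2) :
    |(LL η s).im| < Real.pi / 4 := by
  have hpi := Real.pi_pos
  have hd : ∀ (x t : ℝ), |x| < η → HasDerivAt
      (fun t : ℝ => (LL η ((x : ℂ) + ((t : ℝ) : ℂ) * I)).im)
      (AA η ((x : ℂ) + (t : ℝ) * I)).re t := by
    intro x t hx
    have e1 := LL_deriv hη (s := (x : ℂ) + (t : ℝ) * I) (by simpa using hx)
    have e2 : HasDerivAt (fun t : ℝ => (x : ℂ) + (t : ℝ) * I) I t := by
      have := ((Complex.ofRealCLM.hasDerivAt (x := t)).mul_const I).const_add (x : ℂ)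
      simpa using this
    have e3 := e1.scomp t e2
    have e4 := Complex.imCLM.hasFDerivAt.comp_hasDerivAt t e3
    refine e4.congr_deriv ?_
    simp
  have key : ∀ t : ℂ, |t.re| < η → 0 ≤ t.im → t.im < Real.pi / 2 → |(LL η t).im| < Real.pi / 4 := by
    intro t h1 h2 h3
    have h4 : 0 ≤ (LL η t).im := im_L_nonneg hη h1 h2 (by linarith)
    rw [abs_of_nonneg h4]
    set m : ℝ := (t.im + Real.pi / 2) / 2 with hm
    have hm1 : t.im < m := by rw [hm]; linarith
    have hm2 : m < Real.pi / 2 := by rw [hm]; linarith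
    have hmono : StrictMonoOn (fun φ : ℝ => (LL η ((t.re : ℂ) + ((φ : ℝ) : ℂ) * I)).im)
        (Icc t.im m) := by
      apply strictMonoOn_of_deriv_pos (convex_Icc _ _)
      · intro φ _
        exact (hd t.re φ h1).continuousAt.continuousWithinAt
      · rw [interior_Icc]
        intro φ hφ
        rw [(hd t.re φ h1).deriv]
        refine AA_re_pos hη (by simpa using h1) ?_
        simp
        rw [abs_lt]
        constructor
        · linarith [hφ.1]
        · linarith [hφ.2]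
    have h5 := hmono ⟨le_rfl, hm1.le⟩ ⟨hm1.le, le_rfl⟩ hm1
    simp only at h5
    have e2 : ((t.re : ℂ) + ((t.im : ℝ) : ℂ) * I) = t := Complex.re_add_im t
    rw [e2] at h5
    have h6 := LL_im_le hη (s := (t.re : ℂ) + ((m : ℝ) : ℂ) * I) (by simpa using h1) (by
      simp
      rw [abs_of_nonneg (by linarith)]
      exact hm2.le)
    linarith [(abs_le.1 h6).2]
  rcases le_total 0 s.im with h | h
  · exact key s hs h (abs_lt.1 hi).2
  · have := key (starRingEnd ℂ s) (by simpa using hs) (by simpa using h)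
      (by simpa using (by linarith [(abs_lt.1 hi).1] : -s.im < Real.pi / 2))
    rw [LL_conj, Complex.conj_im, abs_neg] at this
    exact this

theorem Z_re_pos {s : ℂ} (h0 : 0 < s.re) (h1 : s.re < η) (hi : |s.im| < Real.pi / 2) :
    0 < (Z η s).re := by
  have hs : |s.re| < η := abs_lt.2 ⟨by linarith, h1⟩
  have h2 := one_sub_Z hη hs
  have h3 := one_add_Z_ne hη hs
  have h4 : ‖Complex.exp (-2 * LL η s)‖ < 1 := by
    rw [Complex.norm_exp, Real.exp_lt_one_iff]
    have := LL_re_pos hη h0 h1 hi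
    simp
    exact this
  have h5 : ‖1 - Z η s‖ < ‖1 + Z η s‖ := by
    rw [h2, norm_mul]
    have : 0 < ‖1 + Z η s‖ := norm_pos_iff.2 h3
    nlinarith
  have h6 : ‖1 - Z η s‖ ^ 2 < ‖1 + Z η s‖ ^ 2 := by
    have := norm_nonneg (1 - Z η s)
    nlinarith
  rw [← Complex.normSq_eq_norm_sq, ← Complex.normSq_eq_norm_sq, Complex.normSq_apply,
    Complex.normSq_apply] at h6
  simp at h6
  nlinarith

theorem Z_norm_lt {s : ℂ} (hs : |s.re| < η) (hi : |s.im| < Real.pi / 2) : ‖Z η s‖ < 1 := by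
  have h2 := one_sub_Z hη hs
  have h3 := one_add_Z_ne hη hs
  have h4 : 0 < (Complex.exp (-2 * LL η s)).re := by
    rw [Complex.exp_re]
    apply mul_pos (Real.exp_pos _)
    apply Real.cos_pos_of_mem_Ioo
    have h5 := abs_lt.1 (LL_im_lt hη hs hi)
    simp
    constructor <;> linarith
  have h6 : (1 - Z η s) * starRingEnd ℂ (1 + Z η s)
      = Complex.exp (-2 * LL η s) * (Complex.normSq (1 + Z η s) : ℂ) := by
    rw [h2, mul_assoc, Complex.mul_conj]
  have h7 := congrArg Complex.re h6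
  rw [Complex.re_mul_ofReal] at h7
  have h8 : 0 < Complex.normSq (1 + Z η s) := Complex.normSq_pos.2 h3
  have h9 : ((1 - Z η s) * starRingEnd ℂ (1 + Z η s)).re = 1 - ‖Z η s‖ ^ 2 := by
    rw [← Complex.normSq_eq_norm_sq, Complex.normSq_apply]
    simp
    ring
  rw [h9] at h7
  have h10 : 0 < 1 - ‖Z η s‖ ^ 2 := by
    rw [h7]
    exact mul_pos h4 h8
  nlinarith [norm_nonneg (Z η s)]

/-- the open rectangle -/
def Rp (η : ℝ) : Set ℂ := Ioo 0 η ×ℂ Ioo (-(Real.pi / 2)) (Real.pi / 2)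

omit hη in
theorem mem_Rp {s : ℂ} : s ∈ Rp η ↔ (0 < s.re ∧ s.re < η) ∧ |s.im| < Real.pi / 2 := by
  unfold Rp
  rw [Complex.mem_reProdIm, abs_lt]
  rfl

/-- the closed rectangle -/
def Rc (η : ℝ) : Set ℂ := Icc 0 η ×ℂ Icc (-(Real.pi / 2)) (Real.pi / 2)

omit hη in
theorem mem_Rc {s : ℂ} : s ∈ Rc η ↔ (0 ≤ s.re ∧ s.re ≤ η) ∧ |s.im| ≤ Real.pi / 2 := by
  unfold Rc
  rw [Complex.mem_reProdIm, abs_le]
  rfl

omit hη in
theorem Rc_compact : IsCompact (Rc η) := isCompact_Icc.reProdIm isCompact_Icc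

theorem Z_contOn_Rc : ContinuousOn (Z η) (Rc η) := by
  intro s hs
  rw [mem_Rc] at hs
  exact (Z_cont hη (by rw [abs_of_nonneg hs.1.1]; exact hs.1.2)).continuousWithinAt

/-- the open right half disc -/
def Dp : Set ℂ := {z : ℂ | ‖z‖ < 1 ∧ 0 < z.re}

theorem image_open : IsOpen (Z η '' Rp η) := by
  rw [isOpen_iff_mem_nhds]
  rintro _ ⟨s, hs, rfl⟩
  have hs' := mem_Rp.1 hs
  have habs : |s.re| < η := abs_lt.2 ⟨by linarith [hs'.1.1], hs'.1.2⟩
  have hne : AA η s * (1 - Z η s ^ 2) ≠ 0 := by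
    apply mul_ne_zero
    · intro h
      have := AA_re_pos hη habs hs'.2
      rw [h] at this
      simp at this
    · have h1 := one_sub_Z_ne hη habs
      have h2 := one_add_Z_ne hη habs
      rw [show (1 : ℂ) - Z η s ^ 2 = (1 - Z η s) * (1 + Z η s) by ring]
      exact mul_ne_zero h1 h2
  have hopen : IsOpen (Rp η) := isOpen_Ioo.reProdIm isOpen_Ioo
  have hstr : HasStrictDerivAt (Z η) (AA η s * (1 - Z η s ^ 2)) s := by
    have h1 : AnalyticAt ℂ (Z η) s := by
      have : DifferentiableOn ℂ (Z η) {w : ℂ | |w.re| < η} :=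
        fun w hw => (Z_diff hη (le_of_lt hw)).differentiableWithinAt
      exact this.analyticOnNhd isOpen_str s habs
    have h2 := h1.hasStrictDerivAt
    rwa [(Z_deriv hη habs).deriv] at h2
  rw [← hstr.map_nhds_eq hne]
  exact Filter.image_mem_map (hopen.mem_nhds hs)

theorem image_sub : Z η '' Rp η ⊆ Dp := by
  rintro _ ⟨s, hs, rfl⟩
  have hs' := mem_Rp.1 hs
  have habs : |s.re| < η := abs_lt.2 ⟨by linarith [hs'.1.1], hs'.1.2⟩
  exact ⟨Z_norm_lt hη habs hs'.2, Z_re_pos hη hs'.1.1 hs'.1.2 hs'.2⟩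

theorem image_closed : closure (Z η '' Rp η) ∩ Dp ⊆ Z η '' Rp η := by
  rintro z ⟨hz1, hz2⟩
  have hsub : Z η '' Rp η ⊆ Z η '' Rc η := by
    apply image_mono
    intro s hs
    rw [mem_Rp] at hs
    rw [mem_Rc]
    exact ⟨⟨hs.1.1.le, hs.1.2.le⟩, hs.2.le⟩
  have hcl : IsClosed (Z η '' Rc η) := (Rc_compact.image_of_continuousOn (Z_contOn_Rc hη)).isClosed
  obtain ⟨s, hs, rfl⟩ := (hcl.closure_subset_iff.2 hsub) hz1
  rw [mem_Rc] at hs
  refine ⟨s, ?_, rfl⟩
  rw [mem_Rp]
  have hpi := Real.pi_pos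
  refine ⟨⟨?_, ?_⟩, ?_⟩
  · rcases hs.1.1.lt_or_eq with h | h
    · exact h
    · have := Z_re_zero (η := η) h.symm
      have h2 := hz2.2
      rw [this] at h2
      exact absurd h2 (lt_irrefl _)
  · rcases hs.1.2.lt_or_eq with h | h
    · exact h
    · have := Z_norm hη h
      have h2 := hz2.1
      rw [this] at h2
      exact absurd h2 (lt_irrefl _)
  · rcases hs.2.lt_or_eq with h | h
    · exact h
    · exfalso
      have h2 := hz2.2
      rcases (abs_eq (by linarith)).1 h with h3 | h3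
      · rw [Z_re_line h3] at h2
        exact lt_irrefl _ h2
      · rw [Z_re_line' h3] at h2
        exact lt_irrefl _ h2

omit hη in
theorem Dp_convex : Convex ℝ Dp := by
  have h : Dp = Metric.ball (0 : ℂ) 1 ∩ {z : ℂ | 0 < z.re} := by
    ext z
    simp [Dp]
  rw [h]
  exact (convex_ball _ _).inter (convex_halfSpace_re_gt 0)

theorem surj_Dp : Dp ⊆ Z η '' Rp η := by
  have hpi := Real.pi_pos
  apply Dp_convex.isPreconnected.subset_of_closure_inter_subset (image_open hη)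
  · have hmem : ((η / 2 : ℝ) : ℂ) ∈ Rp η := by
      rw [mem_Rp]
      simp
      constructor
      · exact hη
      · exact hpi
    exact ⟨Z η ((η / 2 : ℝ) : ℂ), image_sub hη ⟨_, hmem, rfl⟩, ⟨_, hmem, rfl⟩⟩
  · exact image_closed hη

theorem surj_right {z : ℂ} (h1 : ‖z‖ ≤ 1) (h2 : 0 ≤ z.re) : ∃ s ∈ Rc η, Z η s = z := by
  have hcl : IsClosed (Z η '' Rc η) := (Rc_compact.image_of_continuousOn (Z_contOn_Rc hη)).isClosed
  have hsub : Dp ⊆ Z η '' Rc η := by
    refine (surj_Dp hη).trans (image_mono ?_)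
    intro s hs
    rw [mem_Rp] at hs
    rw [mem_Rc]
    exact ⟨⟨hs.1.1.le, hs.1.2.le⟩, hs.2.le⟩
  have hz : z ∈ closure Dp := by
    -- the point `(1-t) z + t/2`
    rw [mem_closure_iff_seq_limit]
    refine ⟨fun n : ℕ => (1 - (1 / ((n : ℝ) + 1) : ℝ)) * z + ((1 / ((n : ℝ) + 1) : ℝ) : ℂ) * (1 / 2), ?_, ?_⟩
    · intro n
      have hn : (0 : ℝ) < 1 / ((n : ℝ) + 1) := by positivity
      have hn1 : (1 : ℝ) / ((n : ℝ) + 1) ≤ 1 := by
        rw [div_le_one (by positivity)]
        linarith [(Nat.cast_nonneg n : (0 : ℝ) ≤ n)]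
      set t : ℝ := 1 / ((n : ℝ) + 1) with ht
      constructor
      · have e1 : ‖(1 - (t : ℂ)) * z‖ ≤ (1 - t) := by
          rw [norm_mul]
          have : ‖(1 : ℂ) - (t : ℂ)‖ = 1 - t := by
            rw [show (1 : ℂ) - (t : ℂ) = ((1 - t : ℝ) : ℂ) by push_cast; ring, Complex.norm_real,
              Real.norm_eq_abs, abs_of_nonneg (by linarith)]
          rw [this]
          nlinarith
        have e2 : ‖(t : ℂ) * (1 / 2)‖ = t / 2 := by
          rw [norm_mul, Complex.norm_real, Real.norm_eq_abs, abs_of_pos hn]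
          norm_num
          ring
        calc _ ≤ ‖(1 - (t : ℂ)) * z‖ + ‖(t : ℂ) * (1 / 2)‖ := norm_add_le _ _
          _ < 1 := by rw [e2]; linarith
      · have e3 : ((1 - (t : ℂ)) * z + (t : ℂ) * (1 / 2)).re = (1 - t) * z.re + t / 2 := by
          rw [show (1 : ℂ) - (t : ℂ) = ((1 - t : ℝ) : ℂ) by push_cast; ring, Complex.add_re,
            Complex.re_ofReal_mul, Complex.re_ofReal_mul]
          norm_num
          ring
        rw [e3]
        have : 0 ≤ (1 - t) * z.re := mul_nonneg (by linarith) h2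
        linarith
    · have hlim : Tendsto (fun n : ℕ => ((1 / ((n : ℝ) + 1) : ℝ) : ℂ)) atTop (𝓝 0) := by
        have := tendsto_one_div_add_atTop_nhds_zero_nat (𝕜 := ℝ)
        exact (Complex.continuous_ofReal.tendsto 0).comp this
      have h4 : Tendsto (fun n : ℕ => (1 - ((1 / ((n : ℝ) + 1) : ℝ) : ℂ)) * z
          + ((1 / ((n : ℝ) + 1) : ℝ) : ℂ) * (1 / 2)) atTop (𝓝 ((1 - 0) * z + 0 * (1 / 2))) :=
        ((tendsto_const_nhds.sub hlim).mul_const z).add (hlim.mul_const _)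
      simpa using h4
  obtain ⟨s, hs, h⟩ := (hcl.closure_subset_iff.2 hsub) hz
  exact ⟨s, hs, h⟩

/-- every point of the closed disc is a value on the closed strip -/
theorem surj {z : ℂ} (h1 : ‖z‖ ≤ 1) : ∃ s : ℂ, (0 ≤ s.re ∧ s.re ≤ η) ∧
    (-(Real.pi / 2) ≤ s.im ∧ s.im ≤ 3 * Real.pi / 2) ∧ Z η s = z := by
  have hpi := Real.pi_pos
  rcases le_total 0 z.re with h | h
  · obtain ⟨s, hs, hz⟩ := surj_right hη h1 h
    rw [mem_Rc, abs_le] at hs
    exact ⟨s, hs.1, ⟨hs.2.1, by linarith [hs.2.2]⟩, hz⟩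
  · obtain ⟨s, hs, hz⟩ := surj_right hη (z := -z) (by rwa [norm_neg]) (by simpa using h)
    rw [mem_Rc, abs_le] at hs
    refine ⟨s + Real.pi * I, ?_, ?_, ?_⟩
    · simpa using hs.1
    · simp
      constructor
      · linarith [hs.2.1]
      · linarith [hs.2.2]
    · rw [Z_add_pi, hz, neg_neg]

end

end Pool.Agent.Lib.MP_0430e4_lc.YG
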