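import Pool.Agent.Lib.MP_0430e4_lc.YG.A4

/-!
# The multiplier `E_N` of helper88 as an analytic function on the disc

`eN N s = cosh (N s) + cosh s * sinh (N s)`, `N` even.
-/

set_option autoImplicit false

namespace Pool.Agent.Lib.MP_0430e4_lc.YG

open Complex Filter Topology Set

variable {η : ℝ}

/-- the strip function -/
noncomputable def eN (N : ℕ) (s : ℂ) : ℂ :=
  Complex.cosh (N * s) + Complex.cosh s * Complex.sinh (N * s)

theorem eN_zero (N : ℕ) : eN N 0 = 1 := by
  unfold eN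
  simp

theorem eN_diff (N : ℕ) : Differentiable ℂ (eN N) := by
  unfold eN
  fun_prop

theorem eN_deriv_zero (N : ℕ) : HasDerivAt (eN N) (N : ℂ) 0 := by
  have h1 : HasDerivAt (fun s : ℂ => (N : ℂ) * s) (N : ℂ) 0 := by
    simpa using (hasDerivAt_id (0 : ℂ)).const_mul (N : ℂ)
  have h2 := h1.ccosh
  have h3 := h1.csinh
  have h4 := (Complex.hasDerivAt_cosh 0).mul h3
  have h5 := h2.add h4
  refine h5.congr_deriv ?_
  simp

theorem eN_conj (N : ℕ) (s : ℂ) : eN N (starRingEnd ℂ s) = starRingEnd ℂ (eN N s) := by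
  unfold eN
  have h : (N : ℂ) * (starRingEnd ℂ) s = (starRingEnd ℂ) (N * s) := by simp
  rw [map_add, map_mul, ← Complex.cosh_conj, ← Complex.cosh_conj, ← Complex.sinh_conj, h]

theorem exp_N_pi {N : ℕ} (hN : Even N) : Complex.exp (N * (Real.pi * I)) = 1 := by
  obtain ⟨j, rfl⟩ := hN
  have : ((j + j : ℕ) : ℂ) * (Real.pi * I) = j * (2 * Real.pi * I) := by
    push_cast
    ring
  rw [this, Complex.exp_nat_mul_two_pi_mul_I]

theorem cosh_N_pi {N : ℕ} (hN : Even N) : Complex.cosh (N * (Real.pi * I)) = 1 := by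
  rw [Complex.cosh, Complex.exp_neg, exp_N_pi hN]
  norm_num

theorem sinh_N_pi {N : ℕ} (hN : Even N) : Complex.sinh (N * (Real.pi * I)) = 0 := by
  rw [Complex.sinh, Complex.exp_neg, exp_N_pi hN]
  norm_num

theorem eN_per (N : ℕ) (s : ℂ) : eN N (s + 2 * Real.pi * I) = eN N s := by
  unfold eN
  have h1 : (N : ℂ) * (s + 2 * Real.pi * I) = N * s + N * (2 * Real.pi * I) := by ring
  have h2 : Complex.exp (N * (2 * Real.pi * I)) = 1 := Complex.exp_nat_mul_two_pi_mul_I N
  have e1 : Complex.cosh (N * s + N * (2 * Real.pi * I)) = Complex.cosh (N * s) := by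
    rw [Complex.cosh, neg_add, Complex.exp_add, Complex.exp_add, Complex.exp_neg (N * (2 * Real.pi * I)), h2]
    rw [inv_one, mul_one, mul_one, Complex.cosh]
  have e2 : Complex.sinh (N * s + N * (2 * Real.pi * I)) = Complex.sinh (N * s) := by
    rw [Complex.sinh, neg_add, Complex.exp_add, Complex.exp_add, Complex.exp_neg (N * (2 * Real.pi * I)), h2]
    rw [inv_one, mul_one, mul_one, Complex.sinh]
  have e3 : Complex.cosh (s + 2 * Real.pi * I) = Complex.cosh s := by
    rw [Complex.cosh, neg_add, Complex.exp_add, Complex.exp_add, Complex.exp_neg (2 * Real.pi * I),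
      Complex.exp_two_pi_mul_I]
    rw [inv_one, mul_one, mul_one, Complex.cosh]
  rw [h1, e1, e2, e3]

theorem eN_sheet {N : ℕ} (hN : Even N) (s : ℂ) : eN N (Real.pi * I - s) = eN N s := by
  unfold eN
  have h1 : (N : ℂ) * (Real.pi * I - s) = N * (Real.pi * I) - N * s := by ring
  rw [h1, Complex.cosh_sub, Complex.sinh_sub, cosh_N_pi hN, sinh_N_pi hN, Complex.cosh_sub,
    Complex.cosh_mul_I, Complex.sinh_mul_I, Complex.cos_pi, Complex.sin_pi]
  ring

theorem eN_sy {N : ℕ} (hN : Even N) : Sy η (eN N) :=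
  ⟨fun s _ => eN_per N s, fun s _ => eN_sheet hN s⟩

/-- exponential form -/
theorem eN_eq (N : ℕ) (s : ℂ) : eN N s = Complex.exp (N * s) * Complex.cosh (s / 2) ^ 2
    - Complex.exp (-(N * s)) * Complex.sinh (s / 2) ^ 2 := by
  unfold eN
  have h1 : Complex.cosh s = Complex.cosh (s / 2) ^ 2 + Complex.sinh (s / 2) ^ 2 := by
    rw [← Complex.cosh_two_mul]
    congr 1
    ring
  have h2 : Complex.cosh (s / 2) ^ 2 - Complex.sinh (s / 2) ^ 2 = 1 := Complex.cosh_sq_sub_sinh_sq _
  rw [h1, ← Complex.cosh_add_sinh (N * s), ← Complex.cosh_sub_sinh (N * s)]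
  linear_combination (-Complex.cosh (N * s)) * h2

theorem norm_cosh_sq_add (w : ℂ) : ‖Complex.cosh w‖ ^ 2 + ‖Complex.sinh w‖ ^ 2 = Real.cosh (2 * w.re) := by
  have h1 : ∀ z : ℂ, ‖z‖ ^ 2 = z.re ^ 2 + z.im ^ 2 := by
    intro z
    rw [← Complex.normSq_eq_norm_sq, Complex.normSq_apply]
    ring
  have e : w = w.re + w.im * I := (Complex.re_add_im w).symm
  have c1 : (Complex.cosh w).re = Real.cosh w.re * Real.cos w.im := by
    conv_lhs => rw [e]
    rw [Complex.cosh_add, Complex.cosh_mul_I, Complex.sinh_mul_I, ← Complex.ofReal_cosh,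
      ← Complex.ofReal_sinh, ← Complex.ofReal_cos, ← Complex.ofReal_sin]
    simp only [Complex.add_re, Complex.add_im, Complex.mul_re, Complex.mul_im, Complex.ofReal_re,
      Complex.ofReal_im, Complex.I_re, Complex.I_im]
    ring
  have c2 : (Complex.cosh w).im = Real.sinh w.re * Real.sin w.im := by
    conv_lhs => rw [e]
    rw [Complex.cosh_add, Complex.cosh_mul_I, Complex.sinh_mul_I, ← Complex.ofReal_cosh,
      ← Complex.ofReal_sinh, ← Complex.ofReal_cos, ← Complex.ofReal_sin]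
    simp only [Complex.add_re, Complex.add_im, Complex.mul_re, Complex.mul_im, Complex.ofReal_re,
      Complex.ofReal_im, Complex.I_re, Complex.I_im]
    ring
  have c3 : (Complex.sinh w).re = Real.sinh w.re * Real.cos w.im := by
    conv_lhs => rw [e]
    rw [Complex.sinh_add, Complex.cosh_mul_I, Complex.sinh_mul_I, ← Complex.ofReal_cosh,
      ← Complex.ofReal_sinh, ← Complex.ofReal_cos, ← Complex.ofReal_sin]
    simp only [Complex.add_re, Complex.add_im, Complex.mul_re, Complex.mul_im, Complex.ofReal_re,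
      Complex.ofReal_im, Complex.I_re, Complex.I_im]
    ring
  have c4 : (Complex.sinh w).im = Real.cosh w.re * Real.sin w.im := by
    conv_lhs => rw [e]
    rw [Complex.sinh_add, Complex.cosh_mul_I, Complex.sinh_mul_I, ← Complex.ofReal_cosh,
      ← Complex.ofReal_sinh, ← Complex.ofReal_cos, ← Complex.ofReal_sin]
    simp only [Complex.add_re, Complex.add_im, Complex.mul_re, Complex.mul_im, Complex.ofReal_re,
      Complex.ofReal_im, Complex.I_re, Complex.I_im]
    ring
  rw [h1, h1, c1, c2, c3, c4, Real.cosh_two_mul]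
  have h2 := Real.sin_sq_add_cos_sq w.im
  linear_combination (Real.cosh w.re ^ 2 + Real.sinh w.re ^ 2) * h2

/-- general bound -/
theorem norm_eN_le (N : ℕ) {s : ℂ} (h0 : 0 ≤ s.re) :
    ‖eN N s‖ ≤ Real.exp (N * s.re) * Real.cosh s.re := by
  rw [eN_eq]
  have h1 : ‖Complex.exp (N * s) * Complex.cosh (s / 2) ^ 2‖
      = Real.exp (N * s.re) * ‖Complex.cosh (s / 2)‖ ^ 2 := by
    rw [norm_mul, norm_pow, Complex.norm_exp]
    simp
  have h2 : ‖Complex.exp (-(N * s)) * Complex.sinh (s / 2) ^ 2‖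
      ≤ Real.exp (N * s.re) * ‖Complex.sinh (s / 2)‖ ^ 2 := by
    rw [norm_mul, norm_pow, Complex.norm_exp]
    apply mul_le_mul_of_nonneg_right _ (by positivity)
    apply Real.exp_le_exp.2
    have : 0 ≤ (N : ℝ) * s.re := mul_nonneg (Nat.cast_nonneg N) h0
    simp
    linarith
  have h3 := norm_cosh_sq_add (s / 2)
  have h4 : 2 * (s / 2).re = s.re := by
    simp
    ring
  rw [h4] at h3
  calc _ ≤ _ := norm_sub_le _ _
    _ ≤ Real.exp (N * s.re) * ‖Complex.cosh (s / 2)‖ ^ 2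
        + Real.exp (N * s.re) * ‖Complex.sinh (s / 2)‖ ^ 2 := by rw [h1]; linarith
    _ = _ := by rw [← mul_add, h3]

/-- on the slit -/
theorem norm_eN_slit (N : ℕ) {s : ℂ} (h0 : s.re = 0) : ‖eN N s‖ ≤ 1 := by
  have h := norm_eN_le N (s := s) h0.ge
  rw [h0] at h
  simpa using h

/-- on the left half: `s = iπ + t` -/
theorem eN_left {N : ℕ} (hN : Even N) (t : ℂ) : eN N (t + Real.pi * I)
    = Complex.exp (-(N * t)) * Complex.cosh (t / 2) ^ 2
      - Complex.exp (N * t) * Complex.sinh (t / 2) ^ 2 := by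
  have h1 : t + Real.pi * I = Real.pi * I - (-t) := by ring
  rw [h1, eN_sheet hN, eN_eq]
  have h2 : -t / 2 = -(t / 2) := by ring
  rw [h2, Complex.cosh_neg, Complex.sinh_neg, neg_sq]
  have h3 : -(↑N * -t) = N * t := by ring
  have h4 : (N : ℂ) * -t = -(N * t) := by ring
  rw [h3, h4]

/-- `E_N` as an analytic function on the disc -/
theorem exists_EN (hη : 0 < η) {N : ℕ} (hN : Even N) :
    ∃ f : ℂ → ℂ, DifferentiableOn ℂ f (Metric.ball 0 1) ∧
      (∀ s : ℂ, 0 ≤ s.re → s.re < η → f (Z η s) = eN N s) ∧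
      (∀ z : ℂ, ‖z‖ < 1 → f (starRingEnd ℂ z) = starRingEnd ℂ (f z)) ∧
      f 0 = 1 ∧ deriv f 0 = N / AA η 0 := by
  obtain ⟨f, h1, h2⟩ := glue' hη (eN_sy (η := η) hN) (fun s _ => eN_diff N s)
  have hz0 : Z η 0 = 0 := Z_zero
  have h3 : f 0 = 1 := by
    have := h2 0 (by simp) (by simpa using hη)
    rwa [hz0, eN_zero] at this
  refine ⟨f, h1, h2, ?_, h3, ?_⟩
  · intro z hz
    obtain ⟨s, hs1, hs2, hs3⟩ := surj hη hz.le
    have hs1' : s.re < η :=
      re_lt_of_norm hη (mem_Kc.2 ⟨hs1, hs2⟩) (by rw [hs3]; exact hz)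
    rw [← hs3, ← Z_conj, h2 _ (by simpa using hs1.1) (by simpa using hs1'), h2 s hs1.1 hs1', eN_conj]
  · -- derivative at 0: compose with `Z` along `Re s ≥ 0`
    have hf : HasDerivAt f (deriv f 0) 0 :=
      (h1.differentiableAt (Metric.isOpen_ball.mem_nhds (by simp))).hasDerivAt
    have hZ : HasDerivAt (Z η) (AA η 0) 0 := by
      have := Z_deriv hη (s := 0) (by simpa using hη)
      rwa [hz0, zero_pow two_ne_zero, sub_zero, mul_one] at this
    have hcomp : HasDerivAt (fun s => f (Z η s)) (deriv f 0 * AA η 0) 0 := by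
      have hf' : HasDerivAt f (deriv f 0) (Z η 0) := by rwa [hz0]
      exact hf'.comp 0 hZ
    -- restrict to the real half line
    have hr : HasDerivAt (fun x : ℝ => f (Z η (x : ℂ))) (deriv f 0 * AA η 0) 0 := by
      have h4 : HasDerivAt (fun s => f (Z η s)) (deriv f 0 * AA η 0) ((0 : ℝ) : ℂ) := by
        simpa using hcomp
      have := h4.comp_ofReal
      exact this
    have he : HasDerivAt (fun x : ℝ => eN N (x : ℂ)) (N : ℂ) 0 := by
      have h4 : HasDerivAt (eN N) (N : ℂ) ((0 : ℝ) : ℂ) := by simpa using eN_deriv_zero N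
      exact h4.comp_ofReal
    have hw1 : HasDerivWithinAt (fun x : ℝ => f (Z η (x : ℂ))) (deriv f 0 * AA η 0) (Ici 0) 0 :=
      hr.hasDerivWithinAt
    have hw2 : HasDerivWithinAt (fun x : ℝ => f (Z η (x : ℂ))) (N : ℂ) (Ici 0) 0 := by
      refine (he.hasDerivWithinAt (s := Ici 0)).congr_of_eventuallyEq ?_ ?_
      · have : Iio η ∈ 𝓝[Ici 0] (0 : ℝ) := mem_nhdsWithin_of_mem_nhds (Iio_mem_nhds hη)
        filter_upwards [this, self_mem_nhdsWithin] with x hx1 hx2
        exact h2 _ (by simpa using hx2) (by simpa using hx1)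
      · exact h2 _ (by simp) (by simpa using hη)
    have h5 : deriv f 0 * AA η 0 = (N : ℂ) :=
      (uniqueDiffWithinAt_Ici (0 : ℝ)).eq_deriv (Ici (0 : ℝ)) hw1 hw2
    rw [eq_div_iff (AA_zero_ne hη)]
    exact h5

end Pool.Agent.Lib.MP_0430e4_lc.YG
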