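import Pool.Agent.Lib.MP_0430e4_lc.YG.B1

/-!
# The flat multiplier of helper74 as an analytic function on the disc

`eF N s = cosh (N s) + X s * sinh (N s)`, `X = (3 cosh s - cosh s ^ 3) / 2`, `N` even.
-/

set_option autoImplicit false

namespace Pool.Agent.Lib.MP_0430e4_lc.YG

open Complex Filter Topology Set

variable {η : ℝ}

/-- the flat odd multiplier -/
noncomputable def XX (s : ℂ) : ℂ := (3 * Complex.cosh s - Complex.cosh s ^ 3) / 2

/-- the strip function -/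
noncomputable def eF (N : ℕ) (s : ℂ) : ℂ :=
  Complex.cosh (N * s) + XX s * Complex.sinh (N * s)

theorem XX_zero : XX 0 = 1 := by
  unfold XX
  norm_num

theorem XX_neg (s : ℂ) : XX (-s) = XX s := by
  unfold XX
  rw [Complex.cosh_neg]

theorem XX_conj (s : ℂ) : XX (starRingEnd ℂ s) = starRingEnd ℂ (XX s) := by
  unfold XX
  rw [Complex.cosh_conj]
  simp only [map_div₀, map_sub, map_mul, map_pow, map_ofNat]

theorem cosh_per (s : ℂ) : Complex.cosh (s + 2 * Real.pi * I) = Complex.cosh s := by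
  rw [Complex.cosh, neg_add, Complex.exp_add, Complex.exp_add, Complex.exp_neg (2 * Real.pi * I),
    Complex.exp_two_pi_mul_I]
  rw [inv_one, mul_one, mul_one, Complex.cosh]

theorem cosh_sheet (s : ℂ) : Complex.cosh (Real.pi * I - s) = -Complex.cosh s := by
  rw [Complex.cosh_sub, Complex.cosh_mul_I, Complex.sinh_mul_I, Complex.cos_pi, Complex.sin_pi]
  ring

theorem XX_per (s : ℂ) : XX (s + 2 * Real.pi * I) = XX s := by
  unfold XX
  rw [cosh_per]

theorem XX_sheet (s : ℂ) : XX (Real.pi * I - s) = -XX s := by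
  unfold XX
  rw [cosh_sheet]
  ring

theorem XX_diff : Differentiable ℂ XX := by
  unfold XX
  fun_prop

theorem eF_zero (N : ℕ) : eF N 0 = 1 := by
  unfold eF
  simp

theorem eF_diff (N : ℕ) : Differentiable ℂ (eF N) := by
  have h := XX_diff
  unfold eF
  fun_prop

theorem eF_deriv_zero (N : ℕ) : HasDerivAt (eF N) (N : ℂ) 0 := by
  have h1 : HasDerivAt (fun s : ℂ => (N : ℂ) * s) (N : ℂ) 0 := by
    simpa using (hasDerivAt_id (0 : ℂ)).const_mul (N : ℂ)
  have h2 := h1.ccosh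
  have h3 := h1.csinh
  have h4 := (XX_diff 0).hasDerivAt.mul h3
  have h5 := h2.add h4
  refine h5.congr_deriv ?_
  simp [XX_zero]

theorem eF_conj (N : ℕ) (s : ℂ) : eF N (starRingEnd ℂ s) = starRingEnd ℂ (eF N s) := by
  unfold eF
  have h : (N : ℂ) * (starRingEnd ℂ) s = (starRingEnd ℂ) (N * s) := by simp
  rw [map_add, map_mul, ← XX_conj, ← Complex.cosh_conj, ← Complex.sinh_conj, h]

theorem eF_per (N : ℕ) (s : ℂ) : eF N (s + 2 * Real.pi * I) = eF N s := by
  unfold eF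
  have h1 : (N : ℂ) * (s + 2 * Real.pi * I) = N * s + N * (2 * Real.pi * I) := by ring
  have h2 : Complex.exp (N * (2 * Real.pi * I)) = 1 := Complex.exp_nat_mul_two_pi_mul_I N
  have e1 : Complex.cosh (N * s + N * (2 * Real.pi * I)) = Complex.cosh (N * s) := by
    rw [Complex.cosh, neg_add, Complex.exp_add, Complex.exp_add, Complex.exp_neg (N * (2 * Real.pi * I)), h2]
    rw [inv_one, mul_one, mul_one, Complex.cosh]
  have e2 : Complex.sinh (N * s + N * (2 * Real.pi * I)) = Complex.sinh (N * s) := by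
    rw [Complex.sinh, neg_add, Complex.exp_add, Complex.exp_add, Complex.exp_neg (N * (2 * Real.pi * I)), h2]
    rw [inv_one, mul_one, mul_one, Complex.sinh]
  rw [h1, e1, e2, XX_per]

theorem eF_sheet {N : ℕ} (hN : Even N) (s : ℂ) : eF N (Real.pi * I - s) = eF N s := by
  unfold eF
  have h1 : (N : ℂ) * (Real.pi * I - s) = N * (Real.pi * I) - N * s := by ring
  rw [h1, Complex.cosh_sub, Complex.sinh_sub, cosh_N_pi hN, sinh_N_pi hN, XX_sheet]
  ring

theorem eF_sy {N : ℕ} (hN : Even N) : Sy η (eF N) :=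
  ⟨fun s _ => eF_per N s, fun s _ => eF_sheet hN s⟩

theorem cosh_half (s : ℂ) : 1 + Complex.cosh s = 2 * Complex.cosh (s / 2) ^ 2 := by
  have h1 : Complex.cosh s = Complex.cosh (s / 2) ^ 2 + Complex.sinh (s / 2) ^ 2 := by
    rw [← Complex.cosh_two_mul]
    congr 1
    ring
  have h2 : Complex.cosh (s / 2) ^ 2 - Complex.sinh (s / 2) ^ 2 = 1 := Complex.cosh_sq_sub_sinh_sq _
  rw [h1]
  linear_combination -h2

theorem sinh_half (s : ℂ) : 1 - Complex.cosh s = -(2 * Complex.sinh (s / 2) ^ 2) := by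
  have h1 := cosh_half s
  have h2 : Complex.cosh (s / 2) ^ 2 - Complex.sinh (s / 2) ^ 2 = 1 := Complex.cosh_sq_sub_sinh_sq _
  linear_combination -h1 - 2 * h2

/-- the upper amplitude `(1 + X) / 2` -/
theorem XX_up (s : ℂ) : (1 + XX s) / 2
    = Complex.cosh (s / 2) ^ 4 * (1 - 2 * Complex.sinh (s / 2) ^ 2) := by
  have h1 := cosh_half s
  have h2 := sinh_half s
  have h3 : (1 + XX s) / 2 = (1 + Complex.cosh s) ^ 2 * (1 + (1 - Complex.cosh s)) / 4 := by
    unfold XX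
    ring
  rw [h3, h1, h2]
  ring

/-- the lower amplitude `(1 - X) / 2` -/
theorem XX_lo (s : ℂ) : (1 - XX s) / 2
    = Complex.sinh (s / 2) ^ 4 * (1 + 2 * Complex.cosh (s / 2) ^ 2) := by
  have h1 := cosh_half s
  have h2 := sinh_half s
  have h3 : (1 - XX s) / 2 = (1 - Complex.cosh s) ^ 2 * (1 + (1 + Complex.cosh s)) / 4 := by
    unfold XX
    ring
  rw [h3, h1, h2]
  ring

/-- exponential form -/
theorem eF_eq (N : ℕ) (s : ℂ) : eF N s = Complex.exp (N * s) * ((1 + XX s) / 2)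
    + Complex.exp (-(N * s)) * ((1 - XX s) / 2) := by
  unfold eF
  rw [← Complex.cosh_add_sinh (N * s), ← Complex.cosh_sub_sinh (N * s)]
  ring

/-- on the left half: `s = iπ + t` -/
theorem eF_left {N : ℕ} (hN : Even N) (t : ℂ) : eF N (t + Real.pi * I)
    = Complex.exp (-(N * t)) * ((1 + XX t) / 2) + Complex.exp (N * t) * ((1 - XX t) / 2) := by
  have h1 : t + Real.pi * I = Real.pi * I - (-t) := by ring
  rw [h1, eF_sheet hN, eF_eq, XX_neg]
  have h3 : -(↑N * -t) = N * t := by ring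
  have h4 : (N : ℂ) * -t = -(N * t) := by ring
  rw [h3, h4]

/-! ### Amplitudes -/

/-- the upper amplitude -/
noncomputable def aU (s : ℂ) : ℝ := ‖(1 + XX s) / 2‖

/-- the lower amplitude -/
noncomputable def aL (s : ℂ) : ℝ := ‖(1 - XX s) / 2‖

theorem aU_nonneg (s : ℂ) : 0 ≤ aU s := norm_nonneg _

theorem aL_nonneg (s : ℂ) : 0 ≤ aL s := norm_nonneg _

/-- `‖cosh (s/2)‖² + ‖sinh (s/2)‖² = cosh (Re s)` -/
theorem half_sum (s : ℂ) :
    ‖Complex.cosh (s / 2)‖ ^ 2 + ‖Complex.sinh (s / 2)‖ ^ 2 = Real.cosh s.re := by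
  have h3 := norm_cosh_sq_add (s / 2)
  have h4 : 2 * (s / 2).re = s.re := by
    simp
    ring
  rwa [h4] at h3

theorem aU_le (s : ℂ) : aU s ≤ ‖Complex.cosh (s / 2)‖ ^ 4 * (1 + 2 * ‖Complex.sinh (s / 2)‖ ^ 2) := by
  unfold aU
  rw [XX_up, norm_mul, norm_pow]
  refine mul_le_mul_of_nonneg_left ?_ (by positivity)
  refine (norm_sub_le _ _).trans ?_
  rw [norm_mul, norm_pow, norm_one]
  simp

theorem aL_le (s : ℂ) : aL s ≤ ‖Complex.sinh (s / 2)‖ ^ 4 * (1 + 2 * ‖Complex.cosh (s / 2)‖ ^ 2) := by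
  unfold aL
  rw [XX_lo, norm_mul, norm_pow]
  refine mul_le_mul_of_nonneg_left ?_ (by positivity)
  refine (norm_add_le _ _).trans ?_
  rw [norm_mul, norm_pow, norm_one]
  simp

/-- the sum of the amplitudes -/
theorem amp_sum (s : ℂ) : aU s + aL s ≤ Real.cosh s.re ^ 3 := by
  have h1 := aU_le s
  have h2 := aL_le s
  have h3 := half_sum s
  set p := ‖Complex.cosh (s / 2)‖ ^ 2 with hp
  set q := ‖Complex.sinh (s / 2)‖ ^ 2 with hq
  have hp0 : 0 ≤ p := by positivity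
  have hq0 : 0 ≤ q := by positivity
  have e1 : ‖Complex.cosh (s / 2)‖ ^ 4 = p ^ 2 := by rw [hp]; ring
  have e2 : ‖Complex.sinh (s / 2)‖ ^ 4 = q ^ 2 := by rw [hq]; ring
  rw [e1] at h1
  rw [e2] at h2
  have h4 : 1 ≤ p + q := by rw [h3]; exact Real.one_le_cosh _
  rw [← h3]
  nlinarith [mul_nonneg (sub_nonneg.2 h4) (add_nonneg (sq_nonneg p) (sq_nonneg q))]

/-- basic bound by amplitudes -/
theorem norm_eF_amp (N : ℕ) (s : ℂ) :
    ‖eF N s‖ ≤ Real.exp (N * s.re) * aU s + Real.exp (-(N * s.re)) * aL s := by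
  rw [eF_eq]
  refine (norm_add_le _ _).trans ?_
  rw [norm_mul, norm_mul, Complex.norm_exp, Complex.norm_exp]
  simp [aU, aL]

theorem norm_eF_left {N : ℕ} (hN : Even N) (t : ℂ) :
    ‖eF N (t + Real.pi * I)‖ ≤ Real.exp (-(N * t.re)) * aU t + Real.exp (N * t.re) * aL t := by
  rw [eF_left hN]
  refine (norm_add_le _ _).trans ?_
  rw [norm_mul, norm_mul, Complex.norm_exp, Complex.norm_exp]
  simp [aU, aL]

/-- general bound -/
theorem norm_eF_le (N : ℕ) {s : ℂ} (h0 : 0 ≤ s.re) :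
    ‖eF N s‖ ≤ Real.exp (N * s.re) * Real.cosh s.re ^ 3 := by
  have h1 := norm_eF_amp N s
  have h2 := amp_sum s
  have h3 : Real.exp (-(N * s.re)) ≤ Real.exp (N * s.re) := by
    apply Real.exp_le_exp.2
    have : 0 ≤ (N : ℝ) * s.re := mul_nonneg (Nat.cast_nonneg N) h0
    linarith
  have h4 := mul_le_mul_of_nonneg_right h3 (aL_nonneg s)
  have h5 := mul_le_mul_of_nonneg_left h2 (Real.exp_pos (N * s.re)).le
  calc _ ≤ _ := h1
    _ ≤ Real.exp (N * s.re) * (aU s + aL s) := by rw [mul_add]; linarith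
    _ ≤ _ := h5

/-- on the slit -/
theorem norm_eF_slit (N : ℕ) {s : ℂ} (h0 : s.re = 0) : ‖eF N s‖ ≤ 1 := by
  have h := norm_eF_le N (s := s) h0.ge
  rw [h0] at h
  simpa using h

end Pool.Agent.Lib.MP_0430e4_lc.YG
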